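import Mathlib

/-!
# Real estimates for the counting argument
-/

namespace MP_c02e9e_co

open Real

/-- `log x ≤ x / 2` for `x > 0`. -/
theorem log_le_half {x : ℝ} (hx : 0 < x) : Real.log x ≤ x / 2 := by
  have h := Real.log_le_sub_one_of_pos (show (0:ℝ) < x / 2 by positivity)
  rw [Real.log_div hx.ne' (by norm_num)] at h
  have := Real.log_two_lt_d9
  linarith

/-- The main estimate on the exponent. -/
theorem exponent_bound {n b a κ f L l : ℝ} (hn : 0 < n) (hL : 0 < L) (hl0 : 0 ≤ l)
    (hlL : l ≤ L + 1) (ha : a = 2 * n - b - κ) (hκ : 0 ≤ κ)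
    (hb0 : 0 ≤ b) (hb : b ≤ 2 * n)
    (hf0 : 0 ≤ f) (hfb : f ≤ b) (hc : κ + f ≤ n + b / 2)
    (hkey : 2 * n * l ≤ b * L / 2 + 2 * n * L - 2 * n * Real.log L + 2 * n) :
    a * L + (2 * κ + f) * l ≤ 3 * n * L - 2 * n * Real.log L + 4 * n := by
  subst ha
  have hlog := log_le_half hL
  have hnL : n * Real.log L ≤ n * (L / 2) := mul_le_mul_of_nonneg_left hlog hn.le
  rcases le_total (2 * l) L with h2 | h2
  · -- small case
    have h3 : κ * (2 * l - L) ≤ 0 := mul_nonpos_of_nonneg_of_nonpos hκ (by linarith)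
    have h4 : f * l ≤ b * L := by
      apply mul_le_mul hfb _ hl0 hb0
      linarith
    nlinarith
  · have h3 : κ * (2 * l - L) ≤ (n + b / 2 - f) * (2 * l - L) := by
      apply mul_le_mul_of_nonneg_right _ (by linarith)
      linarith
    rcases le_total l L with h5 | h5
    · have h6 : f * (L - l) ≤ b * (L - l) := mul_le_mul_of_nonneg_right hfb (by linarith)
      nlinarith
    · have h6 : f * (L - l) ≤ 0 := mul_nonpos_of_nonneg_of_nonpos hf0 (by linarith)
      have h7 : b * (l - L) ≤ 2 * n * 1 := mul_le_mul hb (by linarith) (by linarith) (by linarith)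
      nlinarith

theorem key_log {n b : ℝ} (hn : 1 < n) (hb : 0 < b) :
    2 * n * Real.log b ≤ b * Real.log n / 2 + 2 * n * Real.log n
      - 2 * n * Real.log (Real.log n) + 2 * n := by
  have hL : 0 < Real.log n := Real.log_pos hn
  have hn0 : 0 < n := by linarith
  have h := Real.log_le_sub_one_of_pos (show (0:ℝ) < b * Real.log n / (4 * n) by positivity)
  rw [Real.log_div (by positivity) (by positivity), Real.log_mul hb.ne' hL.ne',
    Real.log_mul (by norm_num) hn0.ne'] at h
  have h4 : Real.log 4 < 2 := by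
    have : (4:ℝ) = 2 ^ 2 := by norm_num
    rw [this, Real.log_pow]
    have := Real.log_two_lt_d9
    push_cast
    linarith
  have h' := mul_le_mul_of_nonneg_left h (show (0:ℝ) ≤ 2 * n by linarith)
  have e : 2 * n * (b * Real.log n / (4 * n) - 1) = b * Real.log n / 2 - 2 * n := by
    field_simp
    ring
  rw [e] at h'
  nlinarith

theorem choose_bound (N m k : ℕ) (c : ℝ) (hm : (N : ℝ) ≤ c * m) (hc : 0 ≤ c) :
    (N.choose k : ℝ) ≤ c ^ k * Real.exp m := by
  calc (N.choose k : ℝ) ≤ (N : ℝ) ^ k / (k.factorial : ℝ) := Nat.choose_le_pow_div k N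
    _ ≤ (c * m) ^ k / (k.factorial : ℝ) := by gcongr
    _ = c ^ k * ((m : ℝ) ^ k / (k.factorial : ℝ)) := by rw [mul_pow, mul_div_assoc]
    _ ≤ c ^ k * Real.exp m := by
        apply mul_le_mul_of_nonneg_left _ (by positivity)
        exact Real.pow_div_factorial_le_exp _ (by positivity) k

/-- Bound for the number of matrices with prescribed parameters. -/
theorem term_bound {n b κ f a : ℕ} (hn : 3 ≤ n) (hb : b ≤ 2 * n) (ha : a + κ + b = 2 * n)
    (hc : 2 * κ + 2 * f ≤ 2 * n + b) (hf : f ≤ b) :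
    ((n * n).choose a : ℝ) * (((n * b).choose (2 * κ) : ℝ) * ((b * b).choose f : ℝ)) ≤
      Real.exp (3 * n * Real.log n - 2 * n * Real.log (Real.log n) + 8 * n) := by
  have hn0 : (0:ℝ) < n := by positivity
  have hn1 : (1:ℝ) < n := by exact_mod_cast (by omega : 1 < n)
  have hL : 0 < Real.log n := Real.log_pos hn1
  have h1 : ((n * n).choose a : ℝ) ≤ (n:ℝ) ^ a * Real.exp n :=
    choose_bound (n * n) n a n (by push_cast; exact le_refl _) hn0.le
  have h2 : ((n * b).choose (2 * κ) : ℝ) ≤ (b:ℝ) ^ (2 * κ) * Real.exp n :=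
    choose_bound (n * b) n (2 * κ) b (by push_cast; rw [mul_comm]) (by positivity)
  have h3 : ((b * b).choose f : ℝ) ≤ (b:ℝ) ^ f * Real.exp b :=
    choose_bound (b * b) b f b (by push_cast; exact le_refl _) (by positivity)
  have h3' : Real.exp (b:ℝ) ≤ Real.exp (2 * n) := by
    apply Real.exp_le_exp.2
    exact_mod_cast hb
  have hprod : ((n * n).choose a : ℝ) * (((n * b).choose (2 * κ) : ℝ) * ((b * b).choose f : ℝ)) ≤
      ((n:ℝ) ^ a * (b:ℝ) ^ (2 * κ + f)) * Real.exp (4 * n) := by
    calc _ ≤ ((n:ℝ) ^ a * Real.exp n) * (((b:ℝ) ^ (2 * κ) * Real.exp n) *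
          ((b:ℝ) ^ f * Real.exp (2 * n))) := by
          gcongr
          exact h3.trans (by gcongr)
      _ = ((n:ℝ) ^ a * (b:ℝ) ^ (2 * κ + f)) * (Real.exp n * Real.exp n * Real.exp (2 * n)) := by
          rw [pow_add]; ring
      _ = _ := by
          rw [← Real.exp_add, ← Real.exp_add]
          congr 2
          ring
  refine hprod.trans ?_
  have hmain : (n:ℝ) ^ a * (b:ℝ) ^ (2 * κ + f) ≤
      Real.exp (3 * n * Real.log n - 2 * n * Real.log (Real.log n) + 4 * n) := by
    rcases Nat.eq_zero_or_pos b with hb0 | hbpos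
    · -- b = 0
      subst hb0
      have h5 : ((0:ℕ):ℝ) ^ (2 * κ + f) ≤ 1 := by
        apply pow_le_one₀ <;> norm_num
      have h6 : (n:ℝ) ^ a ≤ (n:ℝ) ^ (2 * n) := by
        apply pow_le_pow_right₀ hn1.le
        omega
      calc (n:ℝ) ^ a * ((0:ℕ):ℝ) ^ (2 * κ + f) ≤ (n:ℝ) ^ (2 * n) * 1 := by gcongr
        _ = Real.exp (2 * n * Real.log n) := by
            rw [mul_one, ← Real.rpow_natCast, Real.rpow_def_of_pos hn0]
            congr 1
            push_cast
            ring
        _ ≤ _ := by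
            apply Real.exp_le_exp.2
            have := log_le_half hL
            nlinarith
    · have hb1 : (1:ℝ) ≤ b := by exact_mod_cast hbpos
      have hb0 : (0:ℝ) < b := by linarith
      have e : (n:ℝ) ^ a * (b:ℝ) ^ (2 * κ + f) =
          Real.exp (a * Real.log n + (2 * κ + f) * Real.log b) := by
        rw [Real.exp_add, ← Real.rpow_natCast, ← Real.rpow_natCast, Real.rpow_def_of_pos hn0,
          Real.rpow_def_of_pos hb0]
        push_cast
        ring_nf
      rw [e]
      apply Real.exp_le_exp.2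
      have hbR : (b:ℝ) ≤ 2 * n := by exact_mod_cast hb
      refine exponent_bound (n := n) (b := b) hn0 hL (Real.log_nonneg hb1) ?_ ?_ (by positivity)
        (by positivity) hbR (by positivity) (by exact_mod_cast hf) ?_ (key_log hn1 hb0)
      · calc Real.log b ≤ Real.log (2 * n) := Real.log_le_log hb0 hbR
          _ = Real.log 2 + Real.log n := Real.log_mul (by norm_num) hn0.ne'
          _ ≤ Real.log n + 1 := by have := Real.log_two_lt_d9; linarith
      · have : (a:ℝ) + κ + b = 2 * n := by exact_mod_cast ha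
        linarith
      · have : (2:ℝ) * κ + 2 * f ≤ 2 * n + b := by exact_mod_cast hc
        linarith
  calc ((n:ℝ) ^ a * (b:ℝ) ^ (2 * κ + f)) * Real.exp (4 * n)
      ≤ Real.exp (3 * n * Real.log n - 2 * n * Real.log (Real.log n) + 4 * n) *
        Real.exp (4 * n) := by gcongr
    _ = _ := by
        rw [← Real.exp_add]
        congr 1
        ring

end MP_c02e9e_co
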