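import Pool.Agent.Lib.MP_c02e9e_co.H90Cut

/-!
# The acyclicity lemma for minimal fully indecomposable relations
-/

namespace MP_c02e9e_co

open Finset

open scoped Classical

variable {ρ γ : Type*} [Fintype ρ] [Fintype γ]

/-- Degree of a row. -/
noncomputable def dR (A : ρ → γ → Prop) (i : ρ) : ℕ := (univ.filter (fun j => A i j)).card

/-- Degree of a column. -/
noncomputable def dC (A : ρ → γ → Prop) (j : γ) : ℕ := (univ.filter (fun i => A i j)).card

theorem sum_dR_eq (A : ρ → γ → Prop) : ∑ i, dR A i = ∑ j, dC A j := by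
  have := Finset.sum_card_bipartiteAbove_eq_sum_card_bipartiteBelow (s := (univ : Finset ρ))
    (t := (univ : Finset γ)) A
  simpa [Finset.bipartiteAbove, Finset.bipartiteBelow, dR, dC] using this

theorem no_S_cycle {n : ℕ} {A : ρ → γ → Prop} (h : FI n A) (hρ : Fintype.card ρ = n)
    (hγ : Fintype.card γ = n) {ZC : Finset γ} (hne : ZC.Nonempty)
    (hZC : ∀ y ∈ ZC, dC A y = 2 ∧ ∀ i, A i y → 3 ≤ dR A i)
    (hR : ∀ w, 3 ≤ dR A w → (ZC.filter (fun y => A w y)).card ≠ 1) : False := by
  set W : Finset ρ := univ.filter (fun w => ∃ y ∈ ZC, A w y) with hW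
  have hdc := Finset.sum_card_bipartiteAbove_eq_sum_card_bipartiteBelow (s := W) (t := ZC) A
  have h1 : ∑ a ∈ W, (ZC.bipartiteAbove A a).card ≥ ∑ a ∈ W, 2 := by
    apply Finset.sum_le_sum
    intro w hw
    rw [hW, Finset.mem_filter] at hw
    obtain ⟨-, y, hy, hwy⟩ := hw
    have hbig := (hZC y hy).2 w hwy
    have hne1 := hR w hbig
    have hpos : 0 < (ZC.filter (fun y => A w y)).card :=
      Finset.card_pos.2 ⟨y, Finset.mem_filter.2 ⟨hy, hwy⟩⟩
    unfold Finset.bipartiteAbove
    omega
  have h2 : ∑ b ∈ ZC, (W.bipartiteBelow A b).card = ∑ b ∈ ZC, 2 := by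
    apply Finset.sum_congr rfl
    intro y hy
    rw [← (hZC y hy).1]
    unfold Finset.bipartiteBelow dC
    congr 1
    ext i
    simp only [Finset.mem_filter, Finset.mem_univ, true_and, hW]
    constructor
    · rintro ⟨-, h⟩; exact h
    · intro h; exact ⟨⟨y, hy, h⟩, h⟩
  simp only [Finset.sum_const, smul_eq_mul] at h1 h2
  have hle : W.card ≤ ZC.card := by omega
  by_cases hWu : W = univ
  · have hZn : ZC.card = n := by
      apply le_antisymm
      · rw [← hγ]; exact Finset.card_le_univ _
      · rw [hWu, Finset.card_univ, hρ] at hle; exact hle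
    have hZu : ZC = univ := by
      rw [← Finset.card_eq_iff_eq_univ, hZn, hγ]
    have hs := sum_dR_eq A
    have hs1 : ∑ i, dR A i ≥ ∑ _i : ρ, 3 := by
      apply Finset.sum_le_sum
      intro i _
      have hi : i ∈ W := by rw [hWu]; exact Finset.mem_univ _
      rw [hW, Finset.mem_filter] at hi
      obtain ⟨-, y, hy, hiy⟩ := hi
      exact (hZC y hy).2 i hiy
    have hs2 : ∑ j, dC A j = ∑ _j : γ, 2 := by
      apply Finset.sum_congr rfl
      intro j _
      exact (hZC j (by rw [hZu]; exact Finset.mem_univ _)).1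
    simp only [Finset.sum_const, smul_eq_mul, Finset.card_univ, hρ, hγ] at hs1 hs2
    have : 0 < ZC.card := Finset.card_pos.2 hne
    omega
  · have hcne : (univ \ W).Nonempty := by
      rw [Finset.sdiff_nonempty]
      intro hsub
      exact hWu (Finset.eq_univ_of_forall fun x => hsub (Finset.mem_univ x))
    obtain ⟨i, hi, j, hj, hij⟩ := h (univ \ W) ZC hcne hne (by
      rw [Finset.card_sdiff_of_subset (Finset.subset_univ _), Finset.card_univ, hρ]
      have : W.card ≤ n := by rw [← hρ]; exact Finset.card_le_univ _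
      omega)
    rw [Finset.mem_sdiff] at hi
    exact hi.2 (by rw [hW, Finset.mem_filter]; exact ⟨Finset.mem_univ _, j, hj, hij⟩)

theorem core_row {n : ℕ} {A : ρ → γ → Prop} (h : FI n A) (hρ : Fintype.card ρ = n)
    (hγ : Fintype.card γ = n) {ZF : Finset (ρ × γ)} {ZC : Finset γ}
    (hZF : ∀ g ∈ ZF, A g.1 g.2 ∧ 3 ≤ dR A g.1 ∧ 3 ≤ dC A g.2)
    (hZC : ∀ y ∈ ZC, dC A y = 2 ∧ ∀ i, A i y → 3 ≤ dR A i)
    (hcut : ∀ g ∈ ZF, ∃ S' T', Cut n A g.1 g.2 S' T')
    {u : ρ} {v : γ} (he : (u, v) ∈ ZF) {S : Finset ρ} {T : Finset γ} (hc : Cut n A u v S T)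
    (hmin : ∀ g ∈ ZF, ∀ S' T', Cut n A g.1 g.2 S' T' → S.card ≤ S'.card ∧ S.card ≤ T'.card)
    (hR : ∀ w, 3 ≤ dR A w →
      (ZF.filter (fun g => g.1 = w)).card + (ZC.filter (fun y => A w y)).card ≠ 1) : False := by
  have hcard := hc.card
  have hTn : T.card ≤ n := by rw [← hγ]; exact Finset.card_le_univ _
  have hbigu : 3 ≤ dR A u := (hZF _ he).2.1
  have hbigv : 3 ≤ dC A v := (hZF _ he).2.2
  have hAuv : A u v := (hZF _ he).1
  -- |S| ≥ 2
  have hS2 : 2 ≤ S.card := by
    have hsub : univ.filter (fun j => A u j) ⊆ insert v (univ \ T) := by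
      intro j hj
      rw [Finset.mem_filter] at hj
      rw [Finset.mem_insert, Finset.mem_sdiff]
      by_cases hjT : j ∈ T
      · left; exact (hc.only u hc.hu j hjT hj.2).2
      · right; exact ⟨Finset.mem_univ _, hjT⟩
    have h1 := Finset.card_le_card hsub
    have h2 := Finset.card_insert_le v (univ \ T)
    rw [Finset.card_sdiff_of_subset (Finset.subset_univ _), Finset.card_univ, hγ] at h2
    unfold dR at hbigu
    omega
  have hmin' : ∀ S' T', Cut n A u v S' T' → S.card ≤ S'.card :=
    fun S' T' h' => (hmin _ he S' T' h').1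
  -- (a)
  have ha : ∀ g ∈ ZF, g.1 ∈ S → g = (u, v) := by
    intro g hg hgS
    by_contra hne
    have hz : g.2 ∉ T := by
      intro hgT
      have := hc.only _ hgS _ hgT (hZF g hg).1
      exact hne (Prod.ext this.1 this.2)
    obtain ⟨S', T', hgc⟩ := hcut g hg
    exact no_second h hc hS2 hmin' hgS hz (hmin g hg) hgc
  -- (b)
  have hb : ∀ y ∈ ZC, ∀ w ∈ S, A w y → ∀ w', A w' y → w' ∈ S := by
    intro y hy w hw hwy w' hw'y
    by_contra hw'
    have hyT : y ∉ T := by
      intro hyT
      have := (hc.only w hw y hyT hwy).2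
      have h2 := (hZC y hy).1
      rw [this] at h2
      omega
    have hset : univ.filter (fun i => A i y) = {w, w'} := by
      symm
      apply Finset.eq_of_subset_of_card_le
      · intro i hi
        rw [Finset.mem_insert, Finset.mem_singleton] at hi
        rcases hi with rfl | rfl
        · simpa using hwy
        · simpa using hw'y
      · have h2 : (univ.filter (fun i => A i y)).card = 2 := (hZC y hy).1
        rw [h2, Finset.card_pair]
        rintro rfl
        exact hw' hw
    apply no_single h hc hS2 hmin' hw hyT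
    intro i hi hiy
    have : i ∈ univ.filter (fun i => A i y) := by simpa using hiy
    rw [hset, Finset.mem_insert, Finset.mem_singleton] at this
    rcases this with rfl | rfl
    · rfl
    · exact absurd hi hw'
  set W : Finset ρ := S.filter (fun w => w = u ∨ ∃ y ∈ ZC, A w y) with hW
  set Y : Finset γ := ZC.filter (fun y => ∃ w ∈ S, A w y) with hY
  have huW : u ∈ W := by rw [hW, Finset.mem_filter]; exact ⟨hc.hu, Or.inl rfl⟩
  have hdc := Finset.sum_card_bipartiteAbove_eq_sum_card_bipartiteBelow (s := W) (t := ZC) A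
  have hYsum : ∑ b ∈ ZC, (W.bipartiteBelow A b).card = 2 * Y.card := by
    have : ∀ b ∈ ZC, (W.bipartiteBelow A b).card = if (∃ w ∈ S, A w b) then 2 else 0 := by
      intro y hy
      split_ifs with hex
      · obtain ⟨w, hw, hwy⟩ := hex
        rw [← (hZC y hy).1]
        unfold Finset.bipartiteBelow dC
        congr 1
        ext i
        simp only [Finset.mem_filter, Finset.mem_univ, true_and, hW]
        constructor
        · rintro ⟨-, h⟩; exact h
        · intro hiy
          exact ⟨⟨hb y hy w hw hwy i hiy, Or.inr ⟨y, hy, hiy⟩⟩, hiy⟩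
      · rw [Finset.card_eq_zero]
        unfold Finset.bipartiteBelow
        rw [Finset.filter_eq_empty_iff]
        intro i hi hiy
        rw [hW, Finset.mem_filter] at hi
        exact hex ⟨i, hi.1, hiy⟩
    rw [Finset.sum_congr rfl this, ← Finset.sum_filter, Finset.sum_const, smul_eq_mul, mul_comm]
  have hFu : (ZF.filter (fun g => g.1 = u)).card = 1 := by
    rw [Finset.card_eq_one]
    refine ⟨(u, v), ?_⟩
    ext g
    rw [Finset.mem_filter, Finset.mem_singleton]
    constructor
    · rintro ⟨hg, hgu⟩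
      exact ha g hg (hgu ▸ hc.hu)
    · rintro rfl
      exact ⟨he, rfl⟩
  have hWsum : 2 * W.card ≤ (∑ a ∈ W, (ZC.bipartiteAbove A a).card) + 1 := by
    rw [← Finset.sum_erase_add _ _ huW]
    have h1 : ∑ a ∈ W.erase u, 2 ≤ ∑ a ∈ W.erase u, (ZC.bipartiteAbove A a).card := by
      apply Finset.sum_le_sum
      intro w hw
      rw [Finset.mem_erase, hW, Finset.mem_filter] at hw
      obtain ⟨hwu, hwS, hw2⟩ := hw
      rcases hw2 with rfl | ⟨y, hy, hwy⟩
      · exact absurd rfl hwu
      have hbig := (hZC y hy).2 w hwy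
      have hF0 : (ZF.filter (fun g => g.1 = w)).card = 0 := by
        rw [Finset.card_eq_zero, Finset.filter_eq_empty_iff]
        intro g hg hgw
        have := ha g hg (hgw ▸ hwS)
        rw [this] at hgw
        exact hwu hgw.symm
      have hne1 := hR w hbig
      have hpos : 0 < (ZC.filter (fun y => A w y)).card :=
        Finset.card_pos.2 ⟨y, Finset.mem_filter.2 ⟨hy, hwy⟩⟩
      unfold Finset.bipartiteAbove
      omega
    have h2 : 1 ≤ (ZC.bipartiteAbove A u).card := by
      have hne1 := hR u hbigu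
      unfold Finset.bipartiteAbove
      omega
    rw [Finset.sum_const, smul_eq_mul, Finset.card_erase_of_mem huW] at h1
    have : 0 < W.card := Finset.card_pos.2 ⟨u, huW⟩
    omega
  have hWY : W.card ≤ Y.card := by omega
  have hWpos : 0 < W.card := Finset.card_pos.2 ⟨u, huW⟩
  have hYne : Y.Nonempty := by rw [← Finset.card_pos]; omega
  have hWn : W.card ≤ n := by rw [← hρ]; exact Finset.card_le_univ _
  by_cases hWu : W = univ
  · have hYn : Y.card = n := by
      apply le_antisymm
      · rw [← hγ]; exact Finset.card_le_univ _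
      · rw [hWu, Finset.card_univ, hρ] at hWY; exact hWY
    have hYu : Y = univ := by
      rw [← Finset.card_eq_iff_eq_univ, hYn, hγ]
    have hv : v ∈ Y := by rw [hYu]; exact Finset.mem_univ _
    rw [hY, Finset.mem_filter] at hv
    have := (hZC v hv.1).1
    omega
  · have hcne : (univ \ W).Nonempty := by
      rw [Finset.sdiff_nonempty]
      intro hsub
      exact hWu (Finset.eq_univ_of_forall fun x => hsub (Finset.mem_univ x))
    obtain ⟨i, hi, j, hj, hij⟩ := h (univ \ W) Y hcne hYne (by
      rw [Finset.card_sdiff_of_subset (Finset.subset_univ _), Finset.card_univ, hρ]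
      omega)
    rw [Finset.mem_sdiff] at hi
    rw [hY, Finset.mem_filter] at hj
    obtain ⟨hjZ, w, hw, hwj⟩ := hj
    apply hi.2
    rw [hW, Finset.mem_filter]
    exact ⟨hb j hjZ w hw hwj i hij, Or.inr ⟨j, hjZ, hij⟩⟩

/-- Every nonempty set `Z` of edges between big vertices (big-big edges, and degree-two
vertices with two big neighbours) has a big vertex incident with exactly one member of `Z`. -/
theorem core {n : ℕ} {A : ρ → γ → Prop} (h : FI n A) (hρ : Fintype.card ρ = n)
    (hγ : Fintype.card γ = n) (hcut : ∀ u v, A u v → ∃ S T, Cut n A u v S T)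
    {ZF : Finset (ρ × γ)} {ZR : Finset ρ} {ZC : Finset γ}
    (hZF : ∀ g ∈ ZF, A g.1 g.2 ∧ 3 ≤ dR A g.1 ∧ 3 ≤ dC A g.2)
    (hZR : ∀ x ∈ ZR, dR A x = 2 ∧ ∀ j, A x j → 3 ≤ dC A j)
    (hZC : ∀ y ∈ ZC, dC A y = 2 ∧ ∀ i, A i y → 3 ≤ dR A i)
    (hne : ZF.Nonempty ∨ ZR.Nonempty ∨ ZC.Nonempty) :
    (∃ w, 3 ≤ dR A w ∧
      (ZF.filter (fun g => g.1 = w)).card + (ZC.filter (fun y => A w y)).card = 1) ∨
    (∃ z, 3 ≤ dC A z ∧
      (ZF.filter (fun g => g.2 = z)).card + (ZR.filter (fun x => A x z)).card = 1) := by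
  by_contra hcon
  push Not at hcon
  obtain ⟨hR, hC⟩ := hcon
  rcases ZF.eq_empty_or_nonempty with hZe | hZne
  · subst hZe
    simp only [Finset.filter_empty, Finset.card_empty, zero_add] at hR hC
    rcases hne with h0 | h0 | h0
    · exact absurd h0 (by simp)
    · exact no_S_cycle h.swap hγ hρ h0 hZR hC
    · exact no_S_cycle h hρ hγ h0 hZC hR
  · have hex : ∃ m : ℕ, ∃ g ∈ ZF, ∃ S T, Cut n A g.1 g.2 S T ∧ min S.card T.card = m := by
      obtain ⟨g, hg⟩ := hZne
      obtain ⟨S, T, hST⟩ := hcut g.1 g.2 (hZF g hg).1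
      exact ⟨_, g, hg, S, T, hST, rfl⟩
    obtain ⟨e, he, S, T, hST, hm⟩ := Nat.find_spec hex
    have hmin : ∀ g ∈ ZF, ∀ S' T', Cut n A g.1 g.2 S' T' →
        min S.card T.card ≤ min S'.card T'.card := by
      intro g hg S' T' hc'
      rw [hm]
      exact Nat.find_min' hex ⟨g, hg, S', T', hc', rfl⟩
    rcases le_total S.card T.card with hle | hle
    · rw [min_eq_left hle] at hmin
      exact core_row h hρ hγ hZF hZC (fun g hg => hcut _ _ (hZF g hg).1) (u := e.1) (v := e.2)
        he hST (fun g hg S' T' hc' => le_min_iff.1 (hmin g hg S' T' hc')) hR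
    · rw [min_eq_right hle] at hmin
      have hmem : ∀ g : γ × ρ, g ∈ ZF.image Prod.swap ↔ g.swap ∈ ZF := by
        intro g
        rw [Finset.mem_image]
        constructor
        · rintro ⟨a, ha, rfl⟩; simpa using ha
        · intro hg; exact ⟨_, hg, Prod.swap_swap g⟩
      refine core_row (A := fun j i => A i j) (ZF := ZF.image Prod.swap) (ZC := ZR)
        h.swap hγ hρ ?_ hZR ?_ (u := e.2) (v := e.1) ?_ hST.swap ?_ ?_
      · intro g hg
        rw [hmem] at hg
        have := hZF _ hg
        exact ⟨this.1, this.2.2, this.2.1⟩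
      · intro g hg
        rw [hmem] at hg
        obtain ⟨S', T', hc'⟩ := hcut _ _ (hZF _ hg).1
        exact ⟨T', S', hc'.swap⟩
      · rw [hmem]; exact he
      · intro g hg S' T' hc'
        rw [hmem] at hg
        have := le_min_iff.1 (hmin _ hg T' S' hc'.swap)
        exact ⟨this.2, this.1⟩
      · intro z hz
        have hcard : ((ZF.image Prod.swap).filter (fun g => g.1 = z)).card =
            (ZF.filter (fun g => g.2 = z)).card := by
          rw [← Finset.card_image_of_injective (ZF.filter (fun g => g.2 = z)) Prod.swap_injective]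
          congr 1
          ext g
          rw [Finset.mem_filter, hmem, Finset.mem_image]
          constructor
          · rintro ⟨h1, h2⟩
            exact ⟨g.swap, Finset.mem_filter.2 ⟨h1, h2⟩, Prod.swap_swap g⟩
          · rintro ⟨a, ha, rfl⟩
            rw [Finset.mem_filter] at ha
            exact ⟨by simpa using ha.1, ha.2⟩
        rw [hcard]
        exact hC z hz

end MP_c02e9e_co
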