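import Mathlib

/-!
# Tight cuts of minimal fully indecomposable relations
-/

namespace MP_c02e9e_co

open Finset

variable {ρ γ : Type*} [DecidableEq ρ] [DecidableEq γ]

/-- Fully indecomposable relation of order `n` (no zero rectangle of size `≥ n`). -/
def FI (n : ℕ) (A : ρ → γ → Prop) : Prop :=
  ∀ (S : Finset ρ) (T : Finset γ), S.Nonempty → T.Nonempty → n ≤ S.card + T.card →
    ∃ i ∈ S, ∃ j ∈ T, A i j

/-- A cut for the edge `(u,v)`: a rectangle of size `n` whose only edge is `(u,v)`. -/
structure Cut (n : ℕ) (A : ρ → γ → Prop) (u : ρ) (v : γ) (S : Finset ρ) (T : Finset γ) : Prop where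
  hu : u ∈ S
  hv : v ∈ T
  card : S.card + T.card = n
  only : ∀ i ∈ S, ∀ j ∈ T, A i j → i = u ∧ j = v

theorem FI.swap {n : ℕ} {A : ρ → γ → Prop} (h : FI n A) : FI n (fun j i => A i j) := by
  intro S T hS hT hc
  obtain ⟨i, hi, j, hj, hij⟩ := h T S hT hS (by omega)
  exact ⟨j, hj, i, hi, hij⟩

theorem Cut.swap {n : ℕ} {A : ρ → γ → Prop} {u : ρ} {v : γ} {S : Finset ρ} {T : Finset γ}
    (h : Cut n A u v S T) : Cut n (fun j i => A i j) v u T S :=
  ⟨h.hv, h.hu, by have := h.card; omega, fun j hj i hi hij => (h.only i hi j hj hij).symm⟩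

/-- Nonadjacent columns: if `P` is nonempty with fewer than `n` elements and no edge joins `P`
to `Q` then `|P| + |Q| ≤ n - 1`. -/
theorem FI.noedge {n : ℕ} {A : ρ → γ → Prop} (h : FI n A) {P : Finset ρ} {Q : Finset γ}
    (hP : P.Nonempty) (hPn : P.card < n) (hno : ∀ i ∈ P, ∀ j ∈ Q, ¬ A i j) :
    P.card + Q.card < n := by
  by_contra hc
  push Not at hc
  have hQ : Q.Nonempty := by
    rw [← Finset.card_pos]; omega
  obtain ⟨i, hi, j, hj, hij⟩ := h P Q hP hQ hc
  exact hno i hi j hj hij

/-- If `(S,T)` is a cut of `(u,v)` with `|S| ≥ 2` which is minimal among the cuts of `(u,v)`,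
then no column outside `T` has exactly one neighbour in `S`. -/
theorem no_single {n : ℕ} {A : ρ → γ → Prop} (h : FI n A) {u : ρ} {v : γ}
    {S : Finset ρ} {T : Finset γ} (hc : Cut n A u v S T) (hS2 : 2 ≤ S.card)
    (hmin : ∀ S' T', Cut n A u v S' T' → S.card ≤ S'.card)
    {w : ρ} {z : γ} (hw : w ∈ S) (hz : z ∉ T) (huniq : ∀ i ∈ S, A i z → i = w) : False := by
  have hcard : (S.erase w).card + (insert z T).card = n := by
    rw [Finset.card_erase_of_mem hw, Finset.card_insert_of_notMem hz]
    have := hc.card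
    omega
  have honly : ∀ i ∈ S.erase w, ∀ j ∈ insert z T, A i j → i = u ∧ j = v := by
    intro i hi j hj hij
    rw [Finset.mem_erase] at hi
    rw [Finset.mem_insert] at hj
    rcases hj with rfl | hj
    · exact absurd (huniq i hi.2 hij) hi.1
    · exact hc.only i hi.2 j hj hij
  by_cases hwu : w = u
  · subst hwu
    have hne : (S.erase w).Nonempty := by
      rw [← Finset.card_pos, Finset.card_erase_of_mem hw]; omega
    obtain ⟨i, hi, j, hj, hij⟩ := h (S.erase w) (insert z T) hne ⟨z, by simp⟩ hcard.ge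
    have := (honly i hi j hj hij).1
    rw [Finset.mem_erase] at hi
    exact hi.1 this
  · have hcut : Cut n A u v (S.erase w) (insert z T) :=
      ⟨Finset.mem_erase.2 ⟨fun e => hwu e.symm, hc.hu⟩, Finset.mem_insert_of_mem hc.hv,
        hcard, honly⟩
    have := hmin _ _ hcut
    rw [Finset.card_erase_of_mem hw] at this
    omega

/-- Uncrossing: a globally minimal cut `(S,T)` of `e = (u,v)` and an edge `g = (w,z)`, `g ≠ e`,
`w ∈ S`, all of whose cuts are at least as large: impossible. -/
theorem no_second {n : ℕ} {A : ρ → γ → Prop} (h : FI n A) {u : ρ} {v : γ}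
    {S : Finset ρ} {T : Finset γ} (hc : Cut n A u v S T) (hS2 : 2 ≤ S.card)
    (hmin : ∀ S' T', Cut n A u v S' T' → S.card ≤ S'.card)
    {w : ρ} {z : γ} (hw : w ∈ S) (hz : z ∉ T)
    (hming : ∀ S' T', Cut n A w z S' T' → S.card ≤ S'.card ∧ S.card ≤ T'.card)
    {S' : Finset ρ} {T' : Finset γ} (hg : Cut n A w z S' T') : False := by
  have h1 := hc.card
  have h2 := hg.card
  obtain ⟨hm1, hm2⟩ := hming S' T' hg
  have hwI : w ∈ S ∩ S' := Finset.mem_inter.2 ⟨hw, hg.hu⟩
  have hIne : (S ∩ S').Nonempty := ⟨w, hwI⟩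
  have hUne : (S ∪ S').Nonempty := ⟨w, Finset.mem_union_left _ hw⟩
  have hIU : (S ∪ S').card + (S ∩ S').card = S.card + S'.card := Finset.card_union_add_card_inter S S'
  have hTU : (T ∪ T').card + (T ∩ T').card = T.card + T'.card := Finset.card_union_add_card_inter T T'
  have hIpos : 0 < (S ∩ S').card := Finset.card_pos.2 hIne
  have hUn : (S ∪ S').card < n := by omega
  have hIle : (S ∩ S').card ≤ S.card := Finset.card_le_card Finset.inter_subset_left
  have hT0 : 0 < T.card := Finset.card_pos.2 ⟨v, hc.hv⟩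
  have hIn : (S ∩ S').card < n := by omega
  by_cases hu : u ∈ S'
  · -- case (a2)
    have hvT' : v ∉ T' := by
      intro hv'
      by_cases hAuv : A u v
      · have := hg.only u hu v hv' hAuv
        exact hz (this.2 ▸ hc.hv)
      · -- the edge of the cut exists by FI
        obtain ⟨i, hi, j, hj, hij⟩ := h S T ⟨u, hc.hu⟩ ⟨v, hc.hv⟩ h1.ge
        have := hc.only i hi j hj hij
        rw [this.1, this.2] at hij
        exact hAuv hij
    have hno2 : ∀ i ∈ S ∪ S', ∀ j ∈ T ∩ T', ¬ A i j := by
      intro i hi j hj hij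
      rw [Finset.mem_inter] at hj
      rw [Finset.mem_union] at hi
      rcases hi with hi | hi
      · have := hc.only i hi j hj.1 hij
        exact hvT' (this.2 ▸ hj.2)
      · have := hg.only i hi j hj.2 hij
        exact hz (this.2 ▸ hj.1)
    have hlt := h.noedge hUne hUn hno2
    -- so |S ∩ S'| + |T ∪ T'| ≥ n + 1
    have hzU : z ∈ T ∪ T' := Finset.mem_union_right _ hg.hv
    have hvU : v ∈ (T ∪ T').erase z := by
      rw [Finset.mem_erase]
      exact ⟨fun e => hz (e ▸ hc.hv), Finset.mem_union_left _ hc.hv⟩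
    have honly : ∀ i ∈ S ∩ S', ∀ j ∈ (T ∪ T').erase z, A i j → i = u ∧ j = v := by
      intro i hi j hj hij
      rw [Finset.mem_inter] at hi
      rw [Finset.mem_erase, Finset.mem_union] at hj
      rcases hj.2 with hjT | hjT
      · exact hc.only i hi.1 j hjT hij
      · exact absurd (hg.only i hi.2 j hjT hij).2 hj.1
    have hno1 : ∀ i ∈ S ∩ S', ∀ j ∈ ((T ∪ T').erase z).erase v, ¬ A i j := by
      intro i hi j hj hij
      rw [Finset.mem_erase] at hj
      exact hj.1 (honly i hi j hj.2 hij).2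
    have hlt1 := h.noedge hIne hIn hno1
    rw [Finset.card_erase_of_mem hvU, Finset.card_erase_of_mem hzU] at hlt1
    have hTUpos : 0 < ((T ∪ T').erase z).card := Finset.card_pos.2 ⟨v, hvU⟩
    rw [Finset.card_erase_of_mem hzU] at hTUpos
    have hcut : Cut n A u v (S ∩ S') ((T ∪ T').erase z) := by
      refine ⟨Finset.mem_inter.2 ⟨hc.hu, hu⟩, hvU, ?_, honly⟩
      rw [Finset.card_erase_of_mem hzU]
      omega
    have hle := hmin _ _ hcut
    have hsub : S ∩ S' = S := Finset.eq_of_subset_of_card_le Finset.inter_subset_left hle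
    have hSS' : S ⊆ S' := Finset.inter_eq_left.1 hsub
    exact no_single h hc hS2 hmin hw hz
      (fun i hi hiz => (hg.only i (hSS' hi) z hg.hv hiz).1)
  · -- case (a1)
    have honly : ∀ i ∈ S ∩ S', ∀ j ∈ T ∪ T', A i j → i = w ∧ j = z := by
      intro i hi j hj hij
      rw [Finset.mem_inter] at hi
      rw [Finset.mem_union] at hj
      rcases hj with hj | hj
      · have := hc.only i hi.1 j hj hij
        exact absurd (this.1 ▸ hi.2) hu
      · exact hg.only i hi.2 j hj hij
    have hzU : z ∈ T ∪ T' := Finset.mem_union_right _ hg.hv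
    have hno1 : ∀ i ∈ S ∩ S', ∀ j ∈ (T ∪ T').erase z, ¬ A i j := by
      intro i hi j hj hij
      rw [Finset.mem_erase] at hj
      exact hj.1 (honly i hi j hj.2 hij).2
    have hlt1 := h.noedge hIne hIn hno1
    rw [Finset.card_erase_of_mem hzU] at hlt1
    have hno2 : ∀ i ∈ S ∪ S', ∀ j ∈ (T ∩ T').erase v, ¬ A i j := by
      intro i hi j hj hij
      rw [Finset.mem_erase, Finset.mem_inter] at hj
      rw [Finset.mem_union] at hi
      rcases hi with hi | hi
      · exact hj.1 (hc.only i hi j hj.2.1 hij).2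
      · have := hg.only i hi j hj.2.2 hij
        exact hz (this.2 ▸ hj.2.1)
    have hlt2 := h.noedge hUne hUn hno2
    have hle2 : (T ∩ T').card ≤ ((T ∩ T').erase v).card + 1 := by
      have := Finset.pred_card_le_card_erase (s := T ∩ T') (a := v)
      omega
    have hTUpos : 0 < (T ∪ T').card := Finset.card_pos.2 ⟨z, hzU⟩
    have hcut : Cut n A w z (S ∩ S') (T ∪ T') := ⟨hwI, hzU, by omega, honly⟩
    have hle := (hming _ _ hcut).1
    have hsub : S ∩ S' = S := Finset.eq_of_subset_of_card_le Finset.inter_subset_left hle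
    exact hu (Finset.inter_eq_left.1 hsub hc.hu)

end MP_c02e9e_co
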