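import Mathlib

/-!
# Nearly decomposable Boolean matrices: definitions (MP_c02e9e_co)
-/

namespace MP_c02e9e_co

/-- The set `B_n` of all `n × n` matrices with entries in `{0,1}`
(`true` is the entry `1`, `false` is the entry `0`). -/
abbrev BMat (n : ℕ) := Matrix (Fin n) (Fin n) Bool

/-- `A` has an `s × t` submatrix consisting entirely of zeros with `s + t = n`, `s, t ≥ 1`. -/
def PartlyDecomposable {n : ℕ} (A : BMat n) : Prop :=
  ∃ S T : Finset (Fin n), S.Nonempty ∧ T.Nonempty ∧ S.card + T.card = n ∧
    ∀ i ∈ S, ∀ j ∈ T, A i j = false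

/-- Fully indecomposable: not partly decomposable, and for `n = 1` equal to `[1]`. -/
def FullyIndecomposable {n : ℕ} (A : BMat n) : Prop :=
  ¬ PartlyDecomposable A ∧ (n = 1 → ∀ i j, A i j = true)

/-- Nearly decomposable: fully indecomposable, and changing any entry `1` to `0`
gives a matrix which is not fully indecomposable. -/
def NearlyDecomposable {n : ℕ} (A : BMat n) : Prop :=
  FullyIndecomposable A ∧ ∀ i j, A i j = true →
    ¬ FullyIndecomposable (fun i' j' => if i' = i ∧ j' = j then false else A i' j' : BMat n)

/-- `N_n`, the number of nearly decomposable matrices in `B_n`. -/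
noncomputable def numND (n : ℕ) : ℕ := Nat.card {A : BMat n // NearlyDecomposable A}

end MP_c02e9e_co
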