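import Pool.Agent.Lib.MP_c02e9e_co.H90Core

/-!
# Numerical consequences of the acyclicity lemma
-/

namespace MP_c02e9e_co

open Finset

open scoped Classical

/-- Peeling: if every nonempty subset of `s` has a vertex of `t` incident with exactly one of
its members then `|s| ≤ |t|`. -/
theorem peel {E V : Type*} (inc : E → V → Prop) (k : ℕ) : ∀ (s : Finset E) (t : Finset V),
    s.card = k →
    (∀ Z ⊆ s, Z.Nonempty → ∃ w ∈ t, (Z.filter (fun e => inc e w)).card = 1) →
    s.card ≤ t.card := by
  induction k with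
  | zero => intro s t hs _; omega
  | succ k ih =>
    intro s t hs h
    have hne : s.Nonempty := by rw [← Finset.card_pos]; omega
    obtain ⟨w, hw, h1⟩ := h s (Finset.Subset.refl s) hne
    rw [Finset.card_eq_one] at h1
    obtain ⟨e, he⟩ := h1
    have hes : e ∈ s.filter (fun e => inc e w) := by rw [he]; simp
    have he' : e ∈ s := (Finset.mem_filter.1 hes).1
    have hle := ih (s.erase e) (t.erase w) (by rw [Finset.card_erase_of_mem he']; omega) (by
      intro Z hZ hZne
      obtain ⟨w', hw', h1'⟩ := h Z (hZ.trans (Finset.erase_subset _ _)) hZne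
      refine ⟨w', Finset.mem_erase.2 ⟨?_, hw'⟩, h1'⟩
      rintro rfl
      rw [Finset.card_eq_one] at h1'
      obtain ⟨e2, he2⟩ := h1'
      have hm : e2 ∈ Z.filter (fun e => inc e w') := by rw [he2]; simp
      rw [Finset.mem_filter] at hm
      have hm2 := hZ hm.1
      rw [Finset.mem_erase] at hm2
      have : e2 ∈ s.filter (fun e => inc e w') := Finset.mem_filter.2 ⟨hm2.2, hm.2⟩
      rw [he, Finset.mem_singleton] at this
      exact hm2.1 this)
    rw [Finset.card_erase_of_mem he', Finset.card_erase_of_mem hw] at hle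
    have := Finset.card_pos.2 ⟨w, hw⟩
    omega

variable {ρ γ : Type*} [Fintype ρ] [Fintype γ]

/-- Rows of degree at least three. -/
noncomputable def bR (A : ρ → γ → Prop) : Finset ρ := univ.filter (fun i => 3 ≤ dR A i)
/-- Columns of degree at least three. -/
noncomputable def bC (A : ρ → γ → Prop) : Finset γ := univ.filter (fun j => 3 ≤ dC A j)
/-- Rows of degree two. -/
noncomputable def sR (A : ρ → γ → Prop) : Finset ρ := univ.filter (fun i => dR A i = 2)
/-- Columns of degree two. -/
noncomputable def sC (A : ρ → γ → Prop) : Finset γ := univ.filter (fun j => dC A j = 2)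
/-- Rows of degree two with two big neighbours. -/
noncomputable def iR (A : ρ → γ → Prop) : Finset ρ :=
  univ.filter (fun i => dR A i = 2 ∧ ∀ j, A i j → 3 ≤ dC A j)
/-- Columns of degree two with two big neighbours. -/
noncomputable def iC (A : ρ → γ → Prop) : Finset γ :=
  univ.filter (fun j => dC A j = 2 ∧ ∀ i, A i j → 3 ≤ dR A i)
/-- Big-big edges. -/
noncomputable def eF (A : ρ → γ → Prop) : Finset (ρ × γ) :=
  univ.filter (fun g => A g.1 g.2 ∧ 3 ≤ dR A g.1 ∧ 3 ≤ dC A g.2)
/-- Small-small edges. -/
noncomputable def eS (A : ρ → γ → Prop) : Finset (ρ × γ) :=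
  univ.filter (fun g => A g.1 g.2 ∧ dR A g.1 = 2 ∧ dC A g.2 = 2)
/-- Small-big edges. -/
noncomputable def eRC (A : ρ → γ → Prop) : Finset (ρ × γ) :=
  univ.filter (fun g => A g.1 g.2 ∧ dR A g.1 = 2 ∧ 3 ≤ dC A g.2)
/-- Big-small edges. -/
noncomputable def eCR (A : ρ → γ → Prop) : Finset (ρ × γ) :=
  univ.filter (fun g => A g.1 g.2 ∧ 3 ≤ dR A g.1 ∧ dC A g.2 = 2)

/-- The incidence relation used in the peeling argument. -/
def incid (A : ρ → γ → Prop) : (ρ × γ) ⊕ (ρ ⊕ γ) → ρ ⊕ γ → Prop
  | Sum.inl g, Sum.inl u => g.1 = u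
  | Sum.inl g, Sum.inr v => g.2 = v
  | Sum.inr (Sum.inl _), Sum.inl _ => False
  | Sum.inr (Sum.inl x), Sum.inr v => A x v
  | Sum.inr (Sum.inr y), Sum.inl u => A u y
  | Sum.inr (Sum.inr _), Sum.inr _ => False

theorem forest_bound {n : ℕ} {A : ρ → γ → Prop} (h : FI n A) (hρ : Fintype.card ρ = n)
    (hγ : Fintype.card γ = n) (hcut : ∀ u v, A u v → ∃ S T, Cut n A u v S T) :
    (eF A).card + (iR A).card + (iC A).card ≤ (bR A).card + (bC A).card := by
  have key := peel (incid A) _ ((eF A).disjSum ((iR A).disjSum (iC A)))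
    ((bR A).disjSum (bC A)) rfl ?_
  · rw [Finset.card_disjSum, Finset.card_disjSum, Finset.card_disjSum] at key
    omega
  · intro Z hZ hZne
    rw [Finset.subset_disjSum, Finset.subset_disjSum] at hZ
    obtain ⟨hZ1, hZ2, hZ3⟩ := hZ
    have hne : Z.toLeft.Nonempty ∨ Z.toRight.toLeft.Nonempty ∨ Z.toRight.toRight.Nonempty := by
      obtain ⟨x, hx⟩ := hZne
      rcases x with g | x | y
      · left; exact ⟨g, by simpa using hx⟩
      · right; left; exact ⟨x, by simpa using hx⟩
      · right; right; exact ⟨y, by simpa using hx⟩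
    have hc := core h hρ hγ hcut (ZF := Z.toLeft) (ZR := Z.toRight.toLeft)
      (ZC := Z.toRight.toRight)
      (fun g hg => by have := hZ1 hg; simpa [eF] using this)
      (fun x hx => by have := hZ2 hx; simpa [iR] using this)
      (fun y hy => by have := hZ3 hy; simpa [iC] using this) hne
    rcases hc with ⟨w, hw, hw1⟩ | ⟨z, hz, hz1⟩
    · refine ⟨Sum.inl w, by simpa [bR] using hw, ?_⟩
      rw [← Finset.card_toLeft_add_card_toRight, ← Finset.card_toLeft_add_card_toRight
        (u := (Z.filter (fun e => incid A e (Sum.inl w))).toRight)]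
      have e1 : (Z.filter (fun e => incid A e (Sum.inl w))).toLeft =
          Z.toLeft.filter (fun g => g.1 = w) := by
        ext g
        simp only [Finset.mem_toLeft, Finset.mem_filter]
        exact Iff.rfl
      have e2 : (Z.filter (fun e => incid A e (Sum.inl w))).toRight.toLeft = ∅ := by
        rw [Finset.eq_empty_iff_forall_notMem]
        intro g hg
        simp only [Finset.mem_toLeft, Finset.mem_toRight, Finset.mem_filter] at hg
        exact hg.2
      have e3 : (Z.filter (fun e => incid A e (Sum.inl w))).toRight.toRight =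
          Z.toRight.toRight.filter (fun y => A w y) := by
        ext g
        simp only [Finset.mem_toRight, Finset.mem_filter]
        exact Iff.rfl
      rw [e1, e2, e3, Finset.card_empty, zero_add]
      exact hw1
    · refine ⟨Sum.inr z, by simpa [bC] using hz, ?_⟩
      rw [← Finset.card_toLeft_add_card_toRight, ← Finset.card_toLeft_add_card_toRight
        (u := (Z.filter (fun e => incid A e (Sum.inr z))).toRight)]
      have e1 : (Z.filter (fun e => incid A e (Sum.inr z))).toLeft =
          Z.toLeft.filter (fun g => g.2 = z) := by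
        ext g
        simp only [Finset.mem_toLeft, Finset.mem_filter]
        exact Iff.rfl
      have e2 : (Z.filter (fun e => incid A e (Sum.inr z))).toRight.toRight = ∅ := by
        rw [Finset.eq_empty_iff_forall_notMem]
        intro g hg
        simp only [Finset.mem_toRight, Finset.mem_filter] at hg
        exact hg.2
      have e3 : (Z.filter (fun e => incid A e (Sum.inr z))).toRight.toLeft =
          Z.toRight.toLeft.filter (fun x => A x z) := by
        ext g
        simp only [Finset.mem_toLeft, Finset.mem_toRight, Finset.mem_filter]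
        exact Iff.rfl
      rw [e1, e2, e3, Finset.card_empty, add_zero]
      exact hz1

theorem two_le_dR {n : ℕ} {A : ρ → γ → Prop} (h : FI n A) (hγ : Fintype.card γ = n)
    (hn : 2 ≤ n) (i : ρ) : 2 ≤ dR A i := by
  by_contra hlt
  push Not at hlt
  have hN : (univ.filter (fun j => A i j)).card ≤ n := by rw [← hγ]; exact Finset.card_le_univ _
  have hc : (univ \ univ.filter (fun j => A i j)).card = n - dR A i := by
    rw [Finset.card_sdiff_of_subset (Finset.subset_univ _), Finset.card_univ, hγ, dR]
  obtain ⟨i', hi', j, hj, hij⟩ := h {i} (univ \ univ.filter (fun j => A i j))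
    (Finset.singleton_nonempty i) (by rw [← Finset.card_pos, hc]; omega)
    (by rw [hc, Finset.card_singleton]; omega)
  rw [Finset.mem_singleton] at hi'
  subst hi'
  simp only [Finset.mem_sdiff, Finset.mem_filter, Finset.mem_univ, true_and] at hj
  exact hj hij

/-- Number of edges at the rows of degree two. -/
theorem sum_sR {A : ρ → γ → Prop} :
    2 * (sR A).card = (univ.filter (fun g : ρ × γ => A g.1 g.2 ∧ dR A g.1 = 2)).card := by
  have h1 : ∑ x ∈ sR A, dR A x = 2 * (sR A).card := by
    rw [Finset.sum_congr rfl (g := fun _ => 2) (fun x hx => by simpa [sR] using hx),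
      Finset.sum_const, smul_eq_mul, mul_comm]
  rw [← h1]
  have e : univ.filter (fun g : ρ × γ => A g.1 g.2 ∧ dR A g.1 = 2) =
      ((sR A).sigma (fun x => univ.filter (fun j => A x j))).image (fun p => (p.1, p.2)) := by
    ext g
    simp only [Finset.mem_filter, Finset.mem_univ, true_and, Finset.mem_image,
      Finset.mem_sigma, sR]
    constructor
    · rintro ⟨ha, hb⟩
      exact ⟨⟨g.1, g.2⟩, ⟨hb, ha⟩, rfl⟩
    · rintro ⟨p, ⟨hb, ha⟩, rfl⟩
      exact ⟨ha, hb⟩
  rw [e, Finset.card_image_of_injective, Finset.card_sigma]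
  · rfl
  · rintro ⟨a, b⟩ ⟨c, d⟩ hh
    simp only [Prod.mk.injEq] at hh
    obtain ⟨rfl, rfl⟩ := hh
    rfl

/-- Number of edges at the columns of degree two. -/
theorem sum_sC {A : ρ → γ → Prop} :
    2 * (sC A).card = (univ.filter (fun g : ρ × γ => A g.1 g.2 ∧ dC A g.2 = 2)).card := by
  have h1 : ∑ x ∈ sC A, dC A x = 2 * (sC A).card := by
    rw [Finset.sum_congr rfl (g := fun _ => 2) (fun x hx => by simpa [sC] using hx),
      Finset.sum_const, smul_eq_mul, mul_comm]
  rw [← h1]
  have e : univ.filter (fun g : ρ × γ => A g.1 g.2 ∧ dC A g.2 = 2) =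
      ((sC A).sigma (fun x => univ.filter (fun j => A j x))).image (fun p => (p.2, p.1)) := by
    ext g
    simp only [Finset.mem_filter, Finset.mem_univ, true_and, Finset.mem_image,
      Finset.mem_sigma, sC]
    constructor
    · rintro ⟨ha, hb⟩
      exact ⟨⟨g.2, g.1⟩, ⟨hb, ha⟩, rfl⟩
    · rintro ⟨p, ⟨hb, ha⟩, rfl⟩
      exact ⟨ha, hb⟩
  rw [e, Finset.card_image_of_injective, Finset.card_sigma]
  · rfl
  · rintro ⟨a, b⟩ ⟨c, d⟩ hh
    simp only [Prod.mk.injEq] at hh
    obtain ⟨rfl, rfl⟩ := hh
    rfl

theorem row_count {A : ρ → γ → Prop} (hd : ∀ j, 2 ≤ dC A j) :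
    2 * (sR A).card = (eS A).card + (eRC A).card := by
  rw [sum_sR, ← Finset.card_union_of_disjoint]
  · congr 1
    ext g
    have := hd g.2
    simp only [Finset.mem_filter, Finset.mem_univ, true_and, Finset.mem_union, eS, eRC]
    constructor
    · rintro ⟨h1, h2⟩
      by_cases h3 : dC A g.2 = 2
      · left; exact ⟨h1, h2, h3⟩
      · right; exact ⟨h1, h2, by omega⟩
    · rintro (⟨h1, h2, -⟩ | ⟨h1, h2, -⟩) <;> exact ⟨h1, h2⟩
  · rw [Finset.disjoint_left]
    intro g hg hg'
    simp only [Finset.mem_filter, Finset.mem_univ, true_and, eS, eRC] at hg hg'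
    omega

theorem col_count {A : ρ → γ → Prop} (hd : ∀ i, 2 ≤ dR A i) :
    2 * (sC A).card = (eS A).card + (eCR A).card := by
  rw [sum_sC, ← Finset.card_union_of_disjoint]
  · congr 1
    ext g
    have := hd g.1
    simp only [Finset.mem_filter, Finset.mem_univ, true_and, Finset.mem_union, eS, eCR]
    constructor
    · rintro ⟨h1, h2⟩
      by_cases h3 : dR A g.1 = 2
      · left; exact ⟨h1, h3, h2⟩
      · right; exact ⟨h1, by omega, h2⟩
    · rintro (⟨h1, -, h2⟩ | ⟨h1, -, h2⟩) <;> exact ⟨h1, h2⟩
  · rw [Finset.disjoint_left]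
    intro g hg hg'
    simp only [Finset.mem_filter, Finset.mem_univ, true_and, eS, eCR] at hg hg'
    omega

theorem sR_le {A : ρ → γ → Prop} (hd : ∀ j, 2 ≤ dC A j) :
    (sR A).card ≤ (eS A).card + (iR A).card := by
  have hsub : sR A ⊆ (eS A).image Prod.fst ∪ iR A := by
    intro x hx
    simp only [sR, Finset.mem_filter, Finset.mem_univ, true_and] at hx
    rw [Finset.mem_union]
    by_cases h : ∀ j, A x j → 3 ≤ dC A j
    · right
      simp only [iR, Finset.mem_filter, Finset.mem_univ, true_and]
      exact ⟨hx, h⟩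
    · left
      push Not at h
      obtain ⟨j, hj, hj3⟩ := h
      have := hd j
      rw [Finset.mem_image]
      refine ⟨(x, j), ?_, rfl⟩
      simp only [eS, Finset.mem_filter, Finset.mem_univ, true_and]
      exact ⟨hj, hx, by omega⟩
  calc (sR A).card ≤ ((eS A).image Prod.fst ∪ iR A).card := Finset.card_le_card hsub
    _ ≤ ((eS A).image Prod.fst).card + (iR A).card := Finset.card_union_le _ _
    _ ≤ (eS A).card + (iR A).card := by
        have := Finset.card_image_le (s := eS A) (f := Prod.fst)
        omega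

theorem sC_le {A : ρ → γ → Prop} (hd : ∀ i, 2 ≤ dR A i) :
    (sC A).card ≤ (eS A).card + (iC A).card := by
  have hsub : sC A ⊆ (eS A).image Prod.snd ∪ iC A := by
    intro x hx
    simp only [sC, Finset.mem_filter, Finset.mem_univ, true_and] at hx
    rw [Finset.mem_union]
    by_cases h : ∀ i, A i x → 3 ≤ dR A i
    · right
      simp only [iC, Finset.mem_filter, Finset.mem_univ, true_and]
      exact ⟨hx, h⟩
    · left
      push Not at h
      obtain ⟨j, hj, hj3⟩ := h
      have := hd j
      rw [Finset.mem_image]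
      refine ⟨(j, x), ?_, rfl⟩
      simp only [eS, Finset.mem_filter, Finset.mem_univ, true_and]
      exact ⟨hj, by omega, hx⟩
  calc (sC A).card ≤ ((eS A).image Prod.snd ∪ iC A).card := Finset.card_le_card hsub
    _ ≤ ((eS A).image Prod.snd).card + (iC A).card := Finset.card_union_le _ _
    _ ≤ (eS A).card + (iC A).card := by
        have := Finset.card_image_le (s := eS A) (f := Prod.snd)
        omega

theorem sR_add_bR {A : ρ → γ → Prop} (hd : ∀ i, 2 ≤ dR A i) :
    (sR A).card + (bR A).card = Fintype.card ρ := by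
  rw [← Finset.card_union_of_disjoint, ← Finset.card_univ]
  · congr 1
    ext i
    have := hd i
    simp only [sR, bR, Finset.mem_union, Finset.mem_filter, Finset.mem_univ, true_and, iff_true]
    omega
  · rw [Finset.disjoint_left]
    intro g hg hg'
    simp only [Finset.mem_filter, Finset.mem_univ, true_and, sR, bR] at hg hg'
    omega

theorem sC_add_bC {A : ρ → γ → Prop} (hd : ∀ j, 2 ≤ dC A j) :
    (sC A).card + (bC A).card = Fintype.card γ :=
  sR_add_bR (A := fun j i => A i j) hd

/-- The numerical inequalities satisfied by a minimal fully indecomposable relation.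
`b` = number of big vertices, `κ` = half the number of small-big edges, `f` = number of
big-big edges. -/
theorem numeric {n : ℕ} (hn : 2 ≤ n) {A : ρ → γ → Prop} (h : FI n A) (hρ : Fintype.card ρ = n)
    (hγ : Fintype.card γ = n) (hcut : ∀ u v, A u v → ∃ S T, Cut n A u v S T) :
    ∃ κ : ℕ, (eRC A).card + (eCR A).card = 2 * κ ∧
      (eS A).card + κ + ((bR A).card + (bC A).card) = 2 * n ∧
      2 * κ + 2 * (eF A).card ≤ 2 * n + ((bR A).card + (bC A).card) ∧
      (eF A).card ≤ (bR A).card + (bC A).card := by
  have hdR : ∀ i, 2 ≤ dR A i := two_le_dR h hγ hn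
  have hdC : ∀ j, 2 ≤ dC A j := two_le_dR h.swap hρ hn
  have h1 := row_count hdC
  have h2 := col_count hdR
  have h3 := sR_le hdC
  have h4 := sC_le hdR
  have h5 := sR_add_bR hdR
  have h6 := sC_add_bC hdC
  have h7 := forest_bound h hρ hγ hcut
  rw [hρ] at h5
  rw [hγ] at h6
  refine ⟨(sR A).card + (sC A).card - (eS A).card, ?_, ?_, ?_, ?_⟩ <;> omega

end MP_c02e9e_co
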