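import Pool.Agent.Lib.MP_c02e9e_co.H90LowerAn

/-!
# MP_c02e9e_co: the number of nearly decomposable Boolean matrices

`log N_n = 3 n log n - 2 n log log n + O(n)`, i.e. there are constants `0 < c < C` with
`(c n^3 / (log n)^2)^n ≤ N_n ≤ (C n^3 / (log n)^2)^n` for all large `n`.
-/

namespace Pool.Agent.Results.MP_c02e9e_co.LogAsymptotics

open _root_.MP_c02e9e_co Filter Asymptotics

theorem result :
    (fun n : ℕ => Real.log (numND n) -
      (3 * n * Real.log n - 2 * n * Real.log (Real.log n))) =O[atTop] (fun n : ℕ => (n : ℝ)) := by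
  apply IsBigO.of_bound 16
  filter_upwards [eventually_lower, eventually_ge_atTop 4] with n h1 hn
  have h2 := numND_le (show 3 ≤ n by omega)
  have hpos : (0:ℝ) < numND n := by
    have h6 := le_numND (k := 1) (q := n - 4) (n := n) (le_refl 1) (by omega)
    have h7 := Nat.factorial_pos (n - 4)
    have h8 : 0 < (n - 4).factorial * (1 ^ (n - 4) * 1 ^ (n - 4)) := by simpa using h7
    exact_mod_cast lt_of_lt_of_le h8 h6
  have h3 := Real.log_le_log hpos h2
  rw [Real.log_exp] at h3
  have hn0 : (0:ℝ) ≤ n := by positivity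
  rw [Real.norm_eq_abs, Real.norm_eq_abs, abs_of_nonneg hn0, abs_le]
  constructor <;> linarith

end Pool.Agent.Results.MP_c02e9e_co.LogAsymptotics
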