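import Pool.Agent.Lib.MP_c02e9e_co.H90Upper

/-!
# Lower bound for the number of nearly decomposable matrices
-/

namespace MP_c02e9e_co

open Finset

open scoped Classical

theorem fi_of_matching {ρ γ : Type*} [Fintype ρ] [Fintype γ] {n : ℕ}
    (hρ : Fintype.card ρ = n) (hγ : Fintype.card γ = n) (A : ρ → γ → Prop) (M : ρ → γ)
    (hM : Function.Injective M) (hA : ∀ r, A r (M r))
    (hcl : ∀ S : Finset ρ, S.Nonempty → (∀ r ∈ S, ∀ r', A r (M r') → r' ∈ S) → S = univ) :
    FI n A := by
  intro S T hS hT hc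
  by_contra hno
  push Not at hno
  have hdisj : Disjoint (S.image M) T := by
    rw [Finset.disjoint_left]
    intro c hc1 hc2
    rw [Finset.mem_image] at hc1
    obtain ⟨r, hr, rfl⟩ := hc1
    exact hno r hr _ hc2 (hA r)
  have hcard : (S.image M ∪ T).card = S.card + T.card := by
    rw [Finset.card_union_of_disjoint hdisj, Finset.card_image_of_injective _ hM]
  have huniv : S.image M ∪ T = univ := by
    rw [← Finset.card_eq_iff_eq_univ]
    apply le_antisymm (Finset.card_le_univ _)
    rw [hcard, hγ]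
    exact hc
  have hSu := hcl S hS (by
    intro r hr r' hrr'
    have : M r' ∈ S.image M ∪ T := by rw [huniv]; exact Finset.mem_univ _
    rw [Finset.mem_union, Finset.mem_image] at this
    rcases this with ⟨r'', hr'', he⟩ | hT'
    · rw [← hM he]; exact hr''
    · exact absurd hrr' (hno r hr _ hT'))
  rw [hSu, Finset.card_univ, hρ] at hcard
  have h1 : (S.image M ∪ T).card ≤ n := by rw [← hγ]; exact Finset.card_le_univ _
  have h2 := hT.card_pos
  rw [hSu] at h1
  omega

/-- The index type of the subdivided paths. -/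
abbrev PI (k q : ℕ) := Fin k ⊕ (Fin k ⊕ (Fin k ⊕ Fin q))

/-- Row endpoint of a path. -/
def ea {k q : ℕ} (z : Fin k) (α : Fin q → Fin k) : PI k q → Fin k
  | Sum.inl i => i
  | Sum.inr (Sum.inl _) => z
  | Sum.inr (Sum.inr (Sum.inl i)) => i
  | Sum.inr (Sum.inr (Sum.inr j)) => α j

/-- Column endpoint of a path. -/
def eb {k q : ℕ} (z : Fin k) (β : Fin q → Fin k) : PI k q → Fin k
  | Sum.inl i => i
  | Sum.inr (Sum.inl i) => i
  | Sum.inr (Sum.inr (Sum.inl _)) => z
  | Sum.inr (Sum.inr (Sum.inr j)) => β j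

/-- The pairing of the path rows with the path columns. -/
def ta {k q : ℕ} (σ : Equiv.Perm (Fin q)) : PI k q → PI k q
  | Sum.inl i => Sum.inl i
  | Sum.inr (Sum.inl i) => Sum.inr (Sum.inl i)
  | Sum.inr (Sum.inr (Sum.inl i)) => Sum.inr (Sum.inr (Sum.inl i))
  | Sum.inr (Sum.inr (Sum.inr j)) => Sum.inr (Sum.inr (Sum.inr (σ j)))

theorem ta_injective {k q : ℕ} (σ : Equiv.Perm (Fin q)) :
    Function.Injective (ta (k := k) σ) := by
  intro a b h
  rcases a with a | a | a | a <;> rcases b with b | b | b | b <;> simp_all [ta]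

/-- The adjacency relation of the family. -/
def adj {k q : ℕ} (z : Fin k) (σ : Equiv.Perm (Fin q)) (α β : Fin q → Fin k) :
    Fin k ⊕ PI k q → Fin k ⊕ PI k q → Prop
  | Sum.inl _, Sum.inl _ => False
  | Sum.inl i, Sum.inr p => ea z α p = i
  | Sum.inr p, Sum.inl j => eb z β p = j
  | Sum.inr p, Sum.inr p' => ta σ p = p'

/-- The perfect matching. -/
def mat {k q : ℕ} (σ : Equiv.Perm (Fin q)) : Fin k ⊕ PI k q → Fin k ⊕ PI k q
  | Sum.inl i => Sum.inr (Sum.inl i)
  | Sum.inr (Sum.inl i) => Sum.inl i
  | Sum.inr (Sum.inr p) => Sum.inr (ta σ (Sum.inr p))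

theorem mat_injective {k q : ℕ} (σ : Equiv.Perm (Fin q)) :
    Function.Injective (mat (k := k) σ) := by
  intro a b h
  rcases a with a | a | a | a | a <;> rcases b with b | b | b | b | b <;> simp_all [mat, ta]

theorem adj_mat {k q : ℕ} (z : Fin k) (σ : Equiv.Perm (Fin q)) (α β : Fin q → Fin k)
    (r : Fin k ⊕ PI k q) : adj z σ α β r (mat σ r) := by
  rcases r with a | a | a | a | a <;> simp [adj, mat, ea, eb, ta]

theorem adj_fi {k q n : ℕ} (hn : n = 4 * k + q) (z : Fin k) (σ : Equiv.Perm (Fin q))
    (α β : Fin q → Fin k) : FI n (adj z σ α β) := by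
  have hcard : Fintype.card (Fin k ⊕ PI k q) = n := by
    simp only [Fintype.card_sum, Fintype.card_fin]
    omega
  refine fi_of_matching hcard hcard _ (mat σ) (mat_injective σ) (adj_mat z σ α β) ?_
  intro S hS hcl
  -- from x_p to x_{a_{eb p}}
  have c1 : ∀ p, Sum.inr p ∈ S → (Sum.inr (Sum.inl (eb z β p)) : Fin k ⊕ PI k q) ∈ S := by
    intro p hp
    exact hcl _ hp _ (by simp [adj, mat])
  -- from x_{a_i} to u_i
  have c2 : ∀ i : Fin k, (Sum.inr (Sum.inl i) : Fin k ⊕ PI k q) ∈ S →
      (Sum.inl i : Fin k ⊕ PI k q) ∈ S := by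
    intro i hi
    exact hcl _ hi _ (by simp [adj, mat, ta])
  -- from u_i to x_{c_i}
  have c3 : ∀ i : Fin k, (Sum.inl i : Fin k ⊕ PI k q) ∈ S →
      (Sum.inr (Sum.inr (Sum.inr (Sum.inl i))) : Fin k ⊕ PI k q) ∈ S := by
    intro i hi
    exact hcl _ hi _ (by simp [adj, mat, ta, ea])
  have c4 : ∀ i : Fin k, (Sum.inl i : Fin k ⊕ PI k q) ∈ S →
      (Sum.inl z : Fin k ⊕ PI k q) ∈ S := by
    intro i hi
    exact c2 _ (c1 _ (c3 i hi))
  have c5 : (Sum.inl z : Fin k ⊕ PI k q) ∈ S := by
    obtain ⟨r, hr⟩ := hS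
    rcases r with i | p
    · exact c4 i hr
    · exact c4 _ (c2 _ (c1 _ hr))
  have c6 : ∀ j : Fin k, (Sum.inr (Sum.inr (Sum.inl j)) : Fin k ⊕ PI k q) ∈ S := by
    intro j
    exact hcl _ c5 _ (by simp [adj, mat, ta, ea])
  have c7 : ∀ j : Fin k, (Sum.inr (Sum.inl j) : Fin k ⊕ PI k q) ∈ S := fun j => c1 _ (c6 j)
  have c8 : ∀ j : Fin k, (Sum.inl j : Fin k ⊕ PI k q) ∈ S := fun j => c2 _ (c7 j)
  have c9 : ∀ j : Fin q, (Sum.inr (Sum.inr (Sum.inr (Sum.inr j))) : Fin k ⊕ PI k q) ∈ S := by
    intro j
    exact hcl _ (c8 (α (σ j))) _ (by simp [adj, mat, ta, ea])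
  apply Finset.eq_univ_of_forall
  intro r
  rcases r with i | i | i | i | j
  · exact c8 i
  · exact c7 i
  · exact c6 i
  · exact c3 i (c8 i)
  · exact c9 j

/-- Every edge of the family has an end of degree (at most) two. -/
theorem adj_small {k q : ℕ} (z : Fin k) (σ : Equiv.Perm (Fin q)) (α β : Fin q → Fin k)
    (r c : Fin k ⊕ PI k q) (h : adj z σ α β r c) :
    (∃ c', ∀ c'', adj z σ α β r c'' → c'' = c ∨ c'' = c') ∨
    (∃ r', ∀ r'', adj z σ α β r'' c → r'' = r ∨ r'' = r') := by
  rcases r with i | p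
  · rcases c with j | p
    · exact absurd h (by simp [adj])
    · right
      -- column y_p : neighbours u_{ea p} and its partner
      by_cases hex : ∃ p0, ta σ p0 = p
      · obtain ⟨p0, hp0⟩ := hex
        refine ⟨Sum.inr p0, ?_⟩
        intro r'' hr
        rcases r'' with i'' | p''
        · left
          simp only [adj] at h hr
          rw [← h, ← hr]
        · right
          simp only [adj] at hr
          rw [ta_injective σ (hr.trans hp0.symm)]
      · refine ⟨Sum.inl i, ?_⟩
        intro r'' hr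
        rcases r'' with i'' | p''
        · left
          simp only [adj] at h hr
          rw [← h, ← hr]
        · exact absurd ⟨p'', hr⟩ hex
  · left
    rcases c with j | p1
    · refine ⟨Sum.inr (ta σ p), ?_⟩
      intro c'' hc
      rcases c'' with j'' | p''
      · left
        simp only [adj] at h hc
        rw [← h, ← hc]
      · right
        simp only [adj] at hc
        rw [hc]
    · refine ⟨Sum.inl (eb z β p), ?_⟩
      intro c'' hc
      rcases c'' with j'' | p''
      · right
        simp only [adj] at hc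
        rw [hc]
      · left
        simp only [adj] at h hc
        rw [← h, ← hc]

/-- Criterion for near decomposability. -/
theorem nd_of {n : ℕ} (hn : 2 ≤ n) (B : BMat n) (hFI : FI n (rel B))
    (hs : ∀ i j, B i j = true →
      (∃ j', ∀ j'', B i j'' = true → j'' = j ∨ j'' = j') ∨
      (∃ i', ∀ i'', B i'' j = true → i'' = i ∨ i'' = i')) : NearlyDecomposable B := by
  refine ⟨⟨?_, fun h => by omega⟩, ?_⟩
  · rintro ⟨S, T, hS, hT, hST, hz⟩
    obtain ⟨i, hi, j, hj, hij⟩ := hFI S T hS hT hST.ge
    rw [rel, hz i hi j hj] at hij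
    exact absurd hij (by decide)
  · intro i j hij hfi
    apply hfi.1
    rcases hs i j hij with ⟨j', hj'⟩ | ⟨i', hi'⟩
    · refine ⟨{i}, univ.erase j', Finset.singleton_nonempty _, ?_, ?_, ?_⟩
      · rw [← Finset.card_pos, Finset.card_erase_of_mem (Finset.mem_univ _), Finset.card_univ,
          Fintype.card_fin]
        omega
      · rw [Finset.card_erase_of_mem (Finset.mem_univ _), Finset.card_univ,
          Fintype.card_fin, Finset.card_singleton]
        omega
      · intro a ha b hb
        rw [Finset.mem_singleton] at ha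
        subst ha
        rw [Finset.mem_erase] at hb
        by_cases hbj : b = j
        · exact if_pos ⟨rfl, hbj⟩
        · refine (if_neg (fun h => hbj h.2)).trans ?_
          by_contra hne
          rw [Bool.not_eq_false] at hne
          rcases hj' b hne with h | h
          · exact hbj h
          · exact hb.1 h
    · refine ⟨univ.erase i', {j}, ?_, Finset.singleton_nonempty _, ?_, ?_⟩
      · rw [← Finset.card_pos, Finset.card_erase_of_mem (Finset.mem_univ _), Finset.card_univ,
          Fintype.card_fin]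
        omega
      · rw [Finset.card_erase_of_mem (Finset.mem_univ _), Finset.card_univ,
          Fintype.card_fin, Finset.card_singleton]
        omega
      · intro a ha b hb
        rw [Finset.mem_singleton] at hb
        subst hb
        rw [Finset.mem_erase] at ha
        by_cases hai : a = i
        · exact if_pos ⟨hai, rfl⟩
        · refine (if_neg (fun h => hai h.1)).trans ?_
          by_contra hne
          rw [Bool.not_eq_false] at hne
          rcases hi' a hne with h | h
          · exact hai h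
          · exact ha.1 h

/-- The matrix of the family. -/
noncomputable def famMat {k q n : ℕ} (e : Fin n ≃ Fin k ⊕ PI k q) (z : Fin k)
    (t : Equiv.Perm (Fin q) × ((Fin q → Fin k) × (Fin q → Fin k))) : BMat n :=
  fun i j => decide (adj z t.1 t.2.1 t.2.2 (e i) (e j))

theorem famMat_nd {k q n : ℕ} (hn2 : 2 ≤ n) (hn : n = 4 * k + q)
    (e : Fin n ≃ Fin k ⊕ PI k q) (z : Fin k)
    (t : Equiv.Perm (Fin q) × ((Fin q → Fin k) × (Fin q → Fin k))) :
    NearlyDecomposable (famMat e z t) := by
  apply nd_of hn2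
  · intro S T hS hT hc
    obtain ⟨i, hi, j, hj, hij⟩ := adj_fi hn z t.1 t.2.1 t.2.2 (S.map e.toEmbedding)
      (T.map e.toEmbedding) (hS.map) (hT.map) (by simpa using hc)
    rw [Finset.mem_map] at hi hj
    obtain ⟨i', hi', rfl⟩ := hi
    obtain ⟨j', hj', rfl⟩ := hj
    refine ⟨i', hi', j', hj', ?_⟩
    simpa [rel, famMat] using hij
  · intro i j hij
    have hij' : adj z t.1 t.2.1 t.2.2 (e i) (e j) := by simpa [famMat] using hij
    rcases adj_small z t.1 t.2.1 t.2.2 _ _ hij' with ⟨c', hc'⟩ | ⟨r', hr'⟩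
    · left
      refine ⟨e.symm c', ?_⟩
      intro j'' hj''
      have : adj z t.1 t.2.1 t.2.2 (e i) (e j'') := by simpa [famMat] using hj''
      rcases hc' _ this with h | h
      · left; exact e.injective h
      · right; rw [← h, Equiv.symm_apply_apply]
    · right
      refine ⟨e.symm r', ?_⟩
      intro i'' hi''
      have : adj z t.1 t.2.1 t.2.2 (e i'') (e j) := by simpa [famMat] using hi''
      rcases hr' _ this with h | h
      · left; exact e.injective h
      · right; rw [← h, Equiv.symm_apply_apply]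

theorem famMat_injective {k q n : ℕ} (e : Fin n ≃ Fin k ⊕ PI k q) (z : Fin k) :
    Function.Injective (famMat e z) := by
  rintro ⟨σ, α, β⟩ ⟨σ', α', β'⟩ h
  have key : ∀ r c, adj z σ α β r c ↔ adj z σ' α' β' r c := by
    intro r c
    have h1 := congrFun (congrFun h (e.symm r)) (e.symm c)
    simpa [famMat] using h1
  have h1 : σ = σ' := by
    ext j
    have := (key (Sum.inr (Sum.inr (Sum.inr (Sum.inr j))))
      (Sum.inr (Sum.inr (Sum.inr (Sum.inr (σ j)))))).1 (by simp [adj, ta])
    simp only [adj, ta, Sum.inr.injEq] at this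
    rw [this]
  have h2 : α = α' := by
    funext j
    have := (key (Sum.inl (α j)) (Sum.inr (Sum.inr (Sum.inr (Sum.inr j))))).1
      (by simp [adj, ea])
    simp only [adj, ea] at this
    exact this.symm
  have h3 : β = β' := by
    funext j
    have := (key (Sum.inr (Sum.inr (Sum.inr (Sum.inr j)))) (Sum.inl (β j))).1
      (by simp [adj, eb])
    simp only [adj, eb] at this
    exact this.symm
  rw [h1, h2, h3]

/-- Lower bound, combinatorial form. -/
theorem le_numND {k q n : ℕ} (hk : 1 ≤ k) (hn : n = 4 * k + q) :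
    q.factorial * (k ^ q * k ^ q) ≤ numND n := by
  have hn2 : 2 ≤ n := by omega
  have hcard : Fintype.card (Fin n) = Fintype.card (Fin k ⊕ PI k q) := by
    simp only [Fintype.card_sum, Fintype.card_fin]
    omega
  let e : Fin n ≃ Fin k ⊕ PI k q := Fintype.equivOfCardEq hcard
  let z : Fin k := ⟨0, hk⟩
  have hc : Fintype.card (Equiv.Perm (Fin q) × ((Fin q → Fin k) × (Fin q → Fin k))) =
      q.factorial * (k ^ q * k ^ q) := by
    rw [Fintype.card_prod, Fintype.card_prod, Fintype.card_perm, Fintype.card_fun,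
      Fintype.card_fin, Fintype.card_fin]
  rw [numND_eq, ← hc, ← Finset.card_univ,
    ← Finset.card_image_of_injective univ (famMat_injective e z)]
  apply Finset.card_le_card
  intro B hB
  rw [Finset.mem_image] at hB
  obtain ⟨t, -, rfl⟩ := hB
  exact Finset.mem_filter.2 ⟨Finset.mem_univ _, famMat_nd hn2 hn e z t⟩

end MP_c02e9e_co
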