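import Pool.Agent.Lib.MP_c02e9e_co.H90Lower

/-!
# Analytic form of the lower bound
-/

namespace MP_c02e9e_co

open Real

theorem le_factorial (q : ℕ) (hq : 1 ≤ q) :
    (q:ℝ) * Real.log q - q ≤ Real.log (q.factorial) := by
  have h := Real.pow_div_factorial_le_exp (x := (q:ℝ)) (by positivity) q
  have hf : (0:ℝ) < (q.factorial : ℝ) := by exact_mod_cast Nat.factorial_pos q
  have hq0 : (0:ℝ) < q := by exact_mod_cast hq
  have h1 : (q:ℝ) ^ q ≤ Real.exp q * q.factorial := by
    rwa [div_le_iff₀ hf] at h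
  have h2 := Real.log_le_log (by positivity) h1
  rw [Real.log_pow, Real.log_mul (Real.exp_pos _).ne' hf.ne', Real.log_exp] at h2
  linarith

/-- Lower bound, real form. -/
theorem lower_real {n k q : ℕ} (hk : 1 ≤ k) (hn : n = 4 * k + q) (hL : 4 ≤ Real.log n)
    (hk1 : (n:ℝ) / (16 * Real.log n) ≤ k) (hk2 : (k:ℝ) ≤ n / (8 * Real.log n)) :
    3 * n * Real.log n - 2 * n * Real.log (Real.log n) - 10 * n ≤ Real.log (numND n) := by
  have hL0 : 0 < Real.log n := by linarith
  have hn0 : (0:ℝ) < n := by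
    rcases Nat.eq_zero_or_pos n with h | h
    · subst h; simp at hL; linarith
    · exact_mod_cast h
  have hnq : (n:ℝ) = 4 * k + q := by exact_mod_cast hn
  -- q is large
  have h4k : 4 * (k:ℝ) * (2 * Real.log n) ≤ n := by
    have : (k:ℝ) * (8 * Real.log n) ≤ n := by
      rwa [le_div_iff₀ (by positivity)] at hk2
    linarith
  have hk4 : 4 * (k:ℝ) ≤ n / 2 := by
    have h8 : (0:ℝ) ≤ 4 * (k:ℝ) := by positivity
    nlinarith
  have hq2 : (n:ℝ) / 2 ≤ q := by linarith
  have hq0 : (0:ℝ) < q := by linarith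
  have hq1 : 1 ≤ q := by
    rw [Nat.one_le_iff_ne_zero]
    rintro rfl
    simp at hq0
  have hkpos : (0:ℝ) < k := by exact_mod_cast hk
  have hcomb : ((q.factorial * (k ^ q * k ^ q) : ℕ) : ℝ) ≤ numND n :=
    Nat.cast_le.2 (le_numND hk hn)
  have hf : (0:ℝ) < (q.factorial : ℝ) := by exact_mod_cast Nat.factorial_pos q
  have h1 : Real.log (q.factorial) + 2 * q * Real.log k ≤ Real.log (numND n) := by
    have h2 := Real.log_le_log (by push_cast; positivity) hcomb
    push_cast at h2
    rw [Real.log_mul hf.ne' (by positivity), Real.log_mul (by positivity) (by positivity),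
      Real.log_pow] at h2
    linarith
  have h3 := le_factorial q hq1
  have h2l := Real.log_two_lt_d9
  -- log q ≥ L - 1
  have h4 : Real.log n - 1 ≤ Real.log q := by
    have := Real.log_le_log (by positivity) hq2
    rw [Real.log_div hn0.ne' (by norm_num)] at this
    linarith
  -- log k ≥ L - log L - 3
  have h5 : Real.log n - Real.log (Real.log n) - 3 ≤ Real.log k := by
    have := Real.log_le_log (by positivity) hk1
    rw [Real.log_div hn0.ne' (by positivity), Real.log_mul (by norm_num) hL0.ne'] at this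
    have h16 : Real.log 16 < 3 := by
      have : (16:ℝ) = 2 ^ 4 := by norm_num
      rw [this, Real.log_pow]
      push_cast
      linarith
    linarith
  have hll : 0 ≤ Real.log (Real.log n) := Real.log_nonneg (by linarith)
  have hll2 := log_le_half hL0
  set L := Real.log n with hLdef
  set l := Real.log L with hldef
  have h6 : (q:ℝ) * (3 * L - 2 * l - 8) ≤ Real.log (numND n) := by
    have h7 : (q:ℝ) * (L - 1) ≤ q * Real.log q := mul_le_mul_of_nonneg_left h4 hq0.le
    have h8 : (q:ℝ) * (L - l - 3) ≤ q * Real.log k := mul_le_mul_of_nonneg_left h5 hq0.le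
    nlinarith
  have h9 : (0:ℝ) ≤ 3 * L - 2 * l - 8 := by linarith
  have h10 : (n:ℝ) * (3 * L - 2 * l - 8) - 3 / 2 * n ≤ q * (3 * L - 2 * l - 8) := by
    have h11 : 4 * (k:ℝ) * (3 * L - 2 * l - 8) ≤ 4 * k * (3 * L) := by
      apply mul_le_mul_of_nonneg_left _ (by positivity)
      linarith
    have h12 : (q:ℝ) = n - 4 * k := by linarith
    rw [h12]
    nlinarith
  nlinarith

theorem eventually_lower : ∀ᶠ n : ℕ in Filter.atTop,
    3 * n * Real.log n - 2 * n * Real.log (Real.log n) - 10 * n ≤ Real.log (numND n) := by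
  have h1 : ∀ᶠ n : ℕ in Filter.atTop, 4 ≤ Real.log (n:ℝ) :=
    (Real.tendsto_log_atTop.comp tendsto_natCast_atTop_atTop).eventually_ge_atTop 4
  have h2 : ∀ᶠ n : ℕ in Filter.atTop, Real.log (n:ℝ) ≤ (1/16) * (n:ℝ) := by
    have h3 := Real.isLittleO_log_id_atTop.def (show (0:ℝ) < 1/16 by norm_num)
    have h4 := tendsto_natCast_atTop_atTop (R := ℝ) |>.eventually h3
    filter_upwards [h4, h1] with n hn hn1
    rw [Real.norm_eq_abs, Real.norm_eq_abs, abs_of_nonneg (by linarith)] at hn
    simp only [id] at hn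
    rwa [abs_of_nonneg (by positivity)] at hn
  filter_upwards [h1, h2] with n hL hn
  have hL0 : 0 < Real.log n := by linarith
  set x : ℝ := n / (8 * Real.log n) with hx
  have hx2 : 2 ≤ x := by
    rw [hx, le_div_iff₀ (by positivity)]
    linarith
  set k := ⌊x⌋₊ with hk
  have hkx : (k:ℝ) ≤ x := Nat.floor_le (by linarith)
  have hxk : x < k + 1 := Nat.lt_floor_add_one x
  have hk1 : 1 ≤ k := by
    rw [hk, Nat.one_le_floor_iff]
    linarith
  have h4k : 4 * k ≤ n := by
    have h5 : (4:ℝ) * k ≤ n := by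
      have h6 : (k:ℝ) * (8 * Real.log n) ≤ n := by
        rw [hx, le_div_iff₀ (by positivity)] at hkx
        exact hkx
      have h7 : (0:ℝ) ≤ k := by positivity
      nlinarith
    exact_mod_cast h5
  refine lower_real (k := k) (q := n - 4 * k) hk1 (by omega) hL ?_ hkx
  have h8 : (n:ℝ) / (16 * Real.log n) = x / 2 := by
    rw [hx]
    field_simp
    ring
  rw [h8]
  linarith

end MP_c02e9e_co
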