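import Pool.Agent.Lib.MP_c02e9e_co.H90Defs
import Pool.Agent.Lib.MP_c02e9e_co.H90Forest
import Pool.Agent.Lib.MP_c02e9e_co.H90Analysis

/-!
# Upper bound for the number of nearly decomposable matrices
-/

namespace MP_c02e9e_co

open Finset

open scoped Classical

/-- The relation of a Boolean matrix. -/
def rel {n : ℕ} (A : BMat n) : Fin n → Fin n → Prop := fun i j => A i j = true

theorem fi_of_not_pd {n : ℕ} (hn : 2 ≤ n) {A : BMat n} (h : ¬ PartlyDecomposable A) :
    FI n (rel A) := by
  intro S T hS hT hc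
  by_contra hno
  push Not at hno
  apply h
  have hS1 : 1 ≤ S.card := hS.card_pos
  have hT1 : 1 ≤ T.card := hT.card_pos
  have hSn : S.card ≤ n := by simpa using Finset.card_le_univ S
  obtain ⟨S', hS'S, hS'c⟩ := Finset.exists_subset_card_eq (s := S) (n := min S.card (n - 1))
    (min_le_left _ _)
  obtain ⟨T', hT'T, hT'c⟩ := Finset.exists_subset_card_eq (s := T)
    (n := n - min S.card (n - 1)) (by omega)
  refine ⟨S', T', ?_, ?_, ?_, ?_⟩
  · rw [← Finset.card_pos, hS'c]; omega
  · rw [← Finset.card_pos, hT'c]; omega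
  · rw [hS'c, hT'c]; omega
  · intro i hi j hj
    have := hno i (hS'S hi) j (hT'T hj)
    simpa [rel] using this

theorem fi_of_nd {n : ℕ} (hn : 2 ≤ n) {A : BMat n} (h : NearlyDecomposable A) :
    FI n (rel A) := fi_of_not_pd hn h.1.1

theorem cut_of_nd {n : ℕ} (hn : 2 ≤ n) {A : BMat n} (h : NearlyDecomposable A) :
    ∀ u v, rel A u v → ∃ S T, Cut n (rel A) u v S T := by
  intro u v huv
  have h2 := h.2 u v huv
  have hpd : PartlyDecomposable
      (fun i' j' => if i' = u ∧ j' = v then false else A i' j' : BMat n) := by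
    by_contra hnpd
    exact h2 ⟨hnpd, fun h1 => by omega⟩
  obtain ⟨S, T, hS, hT, hST, hz⟩ := hpd
  have hz' : ∀ i ∈ S, ∀ j ∈ T, rel A i j → i = u ∧ j = v := by
    intro i hi j hj hij
    by_contra hne
    have := hz i hi j hj
    simp only [if_neg hne] at this
    rw [rel, this] at hij
    exact absurd hij (by decide)
  obtain ⟨i, hi, j, hj, hij⟩ := fi_of_nd hn h S T hS hT hST.ge
  obtain ⟨rfl, rfl⟩ := hz' i hi j hj hij
  exact ⟨S, T, hi, hj, hST, hz'⟩

/-- The support of a matrix. -/
noncomputable def supp {n : ℕ} (A : BMat n) : Finset (Fin n × Fin n) :=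
  univ.filter (fun g => rel A g.1 g.2)

theorem supp_injective {n : ℕ} : Function.Injective (supp (n := n)) := by
  intro A B hAB
  funext i j
  have h : ((i, j) ∈ supp A) ↔ ((i, j) ∈ supp B) := by rw [hAB]
  simp only [supp, Finset.mem_filter, Finset.mem_univ, true_and] at h
  rw [Bool.eq_iff_iff]
  exact h

/-- The supports with prescribed parameters. -/
noncomputable def fam {n : ℕ} (R C : Finset (Fin n)) (a κ f : ℕ) :
    Finset (Finset (Fin n × Fin n)) :=
  ((powersetCard a (univ : Finset (Fin n × Fin n))) ×ˢ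
    ((powersetCard (2 * κ) ((univ \ R) ×ˢ C ∪ R ×ˢ (univ \ C))) ×ˢ
      (powersetCard f (R ×ˢ C)))).image (fun t => t.1 ∪ (t.2.1 ∪ t.2.2))

theorem card_fam_le {n : ℕ} (R C : Finset (Fin n)) (a κ f : ℕ) :
    (fam R C a κ f).card ≤ (n * n).choose a *
      ((n * (R.card + C.card)).choose (2 * κ) *
        ((R.card + C.card) * (R.card + C.card)).choose f) := by
  unfold fam
  refine Finset.card_image_le.trans ?_
  rw [Finset.card_product, Finset.card_product, Finset.card_powersetCard,
    Finset.card_powersetCard, Finset.card_powersetCard, Finset.card_univ, Fintype.card_prod,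
    Fintype.card_fin]
  have h1 : ((univ \ R) ×ˢ C ∪ R ×ˢ (univ \ C)).card ≤ n * (R.card + C.card) := by
    refine (Finset.card_union_le _ _).trans ?_
    rw [Finset.card_product, Finset.card_product]
    have hR : (univ \ R).card ≤ n := by
      simpa using Finset.card_le_univ (univ \ R)
    have hC : (univ \ C).card ≤ n := by
      simpa using Finset.card_le_univ (univ \ C)
    have hR' := Nat.mul_le_mul_right C.card hR
    have hC' := Nat.mul_le_mul_left R.card hC
    nlinarith
  have h2 : (R ×ˢ C).card ≤ (R.card + C.card) * (R.card + C.card) := by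
    rw [Finset.card_product]
    exact Nat.mul_le_mul (Nat.le_add_right _ _) (Nat.le_add_left _ _)
  exact Nat.mul_le_mul_left _ (Nat.mul_le_mul (Nat.choose_le_choose _ h1)
    (Nat.choose_le_choose _ h2))

/-- The index set. -/
noncomputable def idx (n : ℕ) : Finset (Finset (Fin n) × Finset (Fin n) × ℕ × ℕ) :=
  ((univ : Finset (Finset (Fin n))) ×ˢ ((univ : Finset (Finset (Fin n))) ×ˢ
    (range (2 * n + 1) ×ˢ range (2 * n + 1)))).filter
    (fun t => t.2.2.1 + (t.1.card + t.2.1.card) ≤ 2 * n ∧
      2 * t.2.2.1 + 2 * t.2.2.2 ≤ 2 * n + (t.1.card + t.2.1.card) ∧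
      t.2.2.2 ≤ t.1.card + t.2.1.card)

theorem card_idx_le (n : ℕ) : (idx n).card ≤ 2 ^ n * (2 ^ n * ((2 * n + 1) * (2 * n + 1))) := by
  unfold idx
  refine (Finset.card_filter_le _ _).trans ?_
  rw [Finset.card_product, Finset.card_product, Finset.card_product, Finset.card_range,
    Finset.card_univ, Fintype.card_finset, Fintype.card_fin]

theorem supp_mem {n : ℕ} (hn : 2 ≤ n) {A : BMat n} (h : NearlyDecomposable A) :
    ∃ t ∈ idx n, supp A ∈ fam t.1 t.2.1 (2 * n - t.2.2.1 - (t.1.card + t.2.1.card))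
      t.2.2.1 t.2.2.2 := by
  have hFI := fi_of_nd hn h
  have hdR : ∀ i, 2 ≤ dR (rel A) i := two_le_dR hFI (by simp) hn
  have hdC : ∀ j, 2 ≤ dC (rel A) j := two_le_dR hFI.swap (by simp) hn
  obtain ⟨κ, h1, h2, h3, h4⟩ := numeric hn hFI (by simp) (by simp) (cut_of_nd hn h)
  have hb : (bR (rel A)).card + (bC (rel A)).card ≤ 2 * n := by omega
  refine ⟨(bR (rel A), bC (rel A), κ, (eF (rel A)).card), ?_, ?_⟩
  · unfold idx
    rw [Finset.mem_filter, Finset.mem_product, Finset.mem_product, Finset.mem_product,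
      Finset.mem_range, Finset.mem_range]
    refine ⟨⟨Finset.mem_univ _, Finset.mem_univ _, ?_, ?_⟩, ?_, ?_, ?_⟩ <;> simp only <;> omega
  · unfold fam
    rw [Finset.mem_image]
    refine ⟨(eS (rel A), eRC (rel A) ∪ eCR (rel A), eF (rel A)), ?_, ?_⟩
    · rw [Finset.mem_product, Finset.mem_product, Finset.mem_powersetCard,
        Finset.mem_powersetCard, Finset.mem_powersetCard]
      refine ⟨⟨Finset.subset_univ _, ?_⟩, ⟨?_, ?_⟩, ?_, rfl⟩
      · simp only; omega
      · intro g hg
        simp only [Finset.mem_union, eRC, eCR, Finset.mem_filter, Finset.mem_univ,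
          true_and] at hg
        simp only [Finset.mem_union, Finset.mem_product, Finset.mem_sdiff, Finset.mem_univ,
          true_and, bR, bC, Finset.mem_filter]
        rcases hg with hg | hg
        · left; omega
        · right; omega
      · simp only
        rw [Finset.card_union_of_disjoint, h1]
        rw [Finset.disjoint_left]
        intro g hg hg'
        simp only [Finset.mem_filter, Finset.mem_univ, true_and, eRC, eCR] at hg hg'
        omega
      · intro g hg
        simp only [eF, Finset.mem_filter, Finset.mem_univ, true_and] at hg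
        simp only [Finset.mem_product, bR, bC, Finset.mem_filter, Finset.mem_univ, true_and]
        exact hg.2
    · ext g
      have hg1 := hdR g.1
      have hg2 := hdC g.2
      simp only [Finset.mem_union, eS, eRC, eCR, eF, supp, Finset.mem_filter, Finset.mem_univ,
        true_and]
      constructor
      · rintro (⟨h, -⟩ | (⟨h, -⟩ | ⟨h, -⟩) | ⟨h, -⟩) <;> exact h
      · intro h
        rcases Nat.lt_or_ge (dR (rel A) g.1) 3 with h5 | h5 <;>
          rcases Nat.lt_or_ge (dC (rel A) g.2) 3 with h6 | h6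
        · left; exact ⟨h, by omega, by omega⟩
        · right; left; left; exact ⟨h, by omega, h6⟩
        · right; left; right; exact ⟨h, h5, by omega⟩
        · right; right; exact ⟨h, h5, h6⟩

theorem numND_eq (n : ℕ) :
    numND n = ((univ : Finset (BMat n)).filter (fun A => NearlyDecomposable A)).card := by
  unfold numND
  rw [Nat.card_eq_fintype_card, Fintype.card_subtype]

/-- Upper bound. -/
theorem numND_le {n : ℕ} (hn : 3 ≤ n) :
    (numND n : ℝ) ≤
      Real.exp (3 * n * Real.log n - 2 * n * Real.log (Real.log n) + 16 * n) := by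
  have hn2 : 2 ≤ n := by omega
  set B : ℝ := Real.exp (3 * n * Real.log n - 2 * n * Real.log (Real.log n) + 8 * n) with hB
  have h1 : numND n ≤ ∑ t ∈ idx n, (fam t.1 t.2.1 (2 * n - t.2.2.1 - (t.1.card + t.2.1.card))
      t.2.2.1 t.2.2.2).card := by
    rw [numND_eq, ← Finset.card_image_of_injective _ (supp_injective (n := n))]
    refine (Finset.card_le_card ?_).trans Finset.card_biUnion_le
    intro E hE
    rw [Finset.mem_image] at hE
    obtain ⟨A, hA, rfl⟩ := hE
    rw [Finset.mem_filter] at hA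
    obtain ⟨t, ht, hm⟩ := supp_mem hn2 hA.2
    rw [Finset.mem_biUnion]
    exact ⟨t, ht, hm⟩
  have h2 : ∀ t ∈ idx n, ((fam t.1 t.2.1 (2 * n - t.2.2.1 - (t.1.card + t.2.1.card))
      t.2.2.1 t.2.2.2).card : ℝ) ≤ B := by
    intro t ht
    unfold idx at ht
    rw [Finset.mem_filter] at ht
    obtain ⟨-, h3, h4, h5⟩ := ht
    have h6 := card_fam_le t.1 t.2.1 (2 * n - t.2.2.1 - (t.1.card + t.2.1.card)) t.2.2.1 t.2.2.2
    have h7 : ((fam t.1 t.2.1 (2 * n - t.2.2.1 - (t.1.card + t.2.1.card))
      t.2.2.1 t.2.2.2).card : ℝ) ≤ _ := Nat.cast_le.2 h6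
    refine h7.trans ?_
    push_cast
    exact term_bound hn (by omega) (by omega) h4 h5
  have h3 : (numND n : ℝ) ≤ (idx n).card * B := by
    calc (numND n : ℝ) ≤ ((∑ t ∈ idx n, (fam t.1 t.2.1
          (2 * n - t.2.2.1 - (t.1.card + t.2.1.card)) t.2.2.1 t.2.2.2).card : ℕ) : ℝ) :=
          Nat.cast_le.2 h1
      _ = ∑ t ∈ idx n, ((fam t.1 t.2.1
          (2 * n - t.2.2.1 - (t.1.card + t.2.1.card)) t.2.2.1 t.2.2.2).card : ℝ) := by
          push_cast; rfl
      _ ≤ ∑ _t ∈ idx n, B := Finset.sum_le_sum h2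
      _ = (idx n).card * B := by rw [Finset.sum_const, nsmul_eq_mul]
  have h4 : ((idx n).card : ℝ) ≤ Real.exp (8 * n) := by
    have h5 : ((idx n).card : ℝ) ≤ ((2 ^ n * (2 ^ n * ((2 * n + 1) * (2 * n + 1))) : ℕ) : ℝ) :=
      Nat.cast_le.2 (card_idx_le n)
    refine h5.trans ?_
    push_cast
    have h6 : (2:ℝ) ^ n ≤ Real.exp n := by
      calc (2:ℝ) ^ n ≤ (Real.exp 1) ^ n := by
            gcongr
            have := Real.exp_one_gt_d9
            linarith
        _ = Real.exp n := by rw [← Real.exp_nat_mul, mul_one]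
    have h7 : (2:ℝ) * n + 1 ≤ Real.exp (2 * n) := Real.add_one_le_exp _
    calc (2:ℝ) ^ n * ((2:ℝ) ^ n * ((2 * n + 1) * (2 * n + 1)))
        ≤ Real.exp n * (Real.exp n * (Real.exp (2 * n) * Real.exp (2 * n))) := by gcongr
      _ = Real.exp (6 * n) := by
          rw [← Real.exp_add, ← Real.exp_add, ← Real.exp_add]
          congr 1
          ring
      _ ≤ Real.exp (8 * n) := by
          apply Real.exp_le_exp.2
          have : (0:ℝ) ≤ n := by positivity
          linarith
  calc (numND n : ℝ) ≤ (idx n).card * B := h3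
    _ ≤ Real.exp (8 * n) * B := by
        apply mul_le_mul_of_nonneg_right h4 (by rw [hB]; positivity)
    _ = _ := by
        rw [hB, ← Real.exp_add]
        congr 1
        ring

end MP_c02e9e_co
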